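import Mathlib

/-!
# Nevanlinna characteristic in the unit disc and the objects of MP_78803a_an
-/

set_option autoImplicit false

open Filter Topology Metric Real MeromorphicOn

namespace Pool.Agent.Helper61.Nev

/-- The proximity function `m(r,f)`, the mean of `log⁺ |f|` over the circle `|z| = r`. -/
noncomputable def prox (f : ℂ → ℂ) (r : ℝ) : ℝ :=
  circleAverage (fun z => log⁺ ‖f z‖) 0 r

/-- The integrated counting function `N(r,f)` of the poles of `f`. The negative part of the divisor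
at `u` is the multiplicity of `u` as a pole. (At `u = 0` the summand is `0`, since
`log (r * 0⁻¹) = log 0 = 0`.) -/
noncomputable def countN (f : ℂ → ℂ) (r : ℝ) : ℝ :=
  ∑ᶠ u : ℂ, (((divisor f (closedBall 0 r) u)⁻ : ℤ) : ℝ) * log (r * ‖u‖⁻¹)
    + (((divisor f (closedBall 0 r) 0)⁻ : ℤ) : ℝ) * log r

/-- The Nevanlinna characteristic `T(r,f) = m(r,f) + N(r,f)`. -/
noncomputable def charT (f : ℂ → ℂ) (r : ℝ) : ℝ := prox f r + countN f r

/-- `α(f) = limsup_{r → 1-} T(r,f) / (-log (1 - r))`. -/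
noncomputable def alpha (f : ℂ → ℂ) : EReal :=
  limsup (fun r : ℝ => ((charT f r / (-log (1 - r)) : ℝ) : EReal)) (𝓝[<] 1)

/-- `f` is constant in the unit disc, as a meromorphic function. -/
def ConstInDisc (f : ℂ → ℂ) : Prop :=
  ∃ c : ℂ, f =ᶠ[codiscreteWithin (ball (0 : ℂ) 1)] fun _ => c

/-- The admissible functions. -/
structure Admissible (f : ℂ → ℂ) : Prop where
  /-- `f` is meromorphic in the unit disc. -/
  mero : MeromorphicOn f (ball 0 1)
  /-- `f` is not constant. -/
  nonconst : ¬ ConstInDisc f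
  /-- `α(f) < ∞`. -/
  alpha_lt : alpha f < ⊤
  /-- `f` has finitely many zeros in the disc. -/
  zeros : {z : ℂ | z ∈ ball (0 : ℂ) 1 ∧ 0 < meromorphicOrderAt f z}.Finite
  /-- `f` has finitely many poles in the disc. -/
  poles : {z : ℂ | z ∈ ball (0 : ℂ) 1 ∧ meromorphicOrderAt f z < 0}.Finite

/-- The coefficients `a_0, …, a_l` are admissible for `f`: each `a_ν` is meromorphic in the disc with
`T(r,a_ν) = o(T(r,f))` as `r → 1`, and `a_l` does not vanish identically. -/
structure AdmissibleCoeffs (l : ℕ) (f : ℂ → ℂ) (a : ℕ → ℂ → ℂ) : Prop where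
  /-- the coefficients are meromorphic in the disc -/
  mero : ∀ ν ≤ l, MeromorphicOn (a ν) (ball 0 1)
  /-- the coefficients are small functions -/
  small : ∀ ν ≤ l, charT (a ν) =o[𝓝[<] 1] charT f
  /-- the leading coefficient is not identically zero -/
  leading : ¬ a l =ᶠ[codiscreteWithin (ball (0 : ℂ) 1)] fun _ => 0

/-- The linear differential polynomial `Ψ = ∑_{ν ≤ l} a_ν f^{(ν)}`. -/
noncomputable def diffPoly (l : ℕ) (a : ℕ → ℂ → ℂ) (f : ℂ → ℂ) : ℂ → ℂ :=
  fun z => ∑ ν ∈ Finset.range (l + 1), a ν z * iteratedDeriv ν f z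

/-- Property (V): every `w ≠ 0` is taken infinitely often in the disc. -/
def PropertyV (Ψ : ℂ → ℂ) : Prop :=
  ∀ w : ℂ, w ≠ 0 →
    {z : ℂ | z ∈ ball (0 : ℂ) 1 ∧ 0 < meromorphicOrderAt (fun ζ => Ψ ζ - w) z}.Infinite

/-- The statement asked for in Q1, for given `l` and `α₀`: for every admissible `f` with
`α(f) = α₀`, every non-constant admissible linear differential polynomial of order `l` in `f` has
property (V). -/
def Holds (l : ℕ) (α₀ : EReal) : Prop :=
  ∀ f : ℂ → ℂ, Admissible f → alpha f = α₀ →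
    ∀ a : ℕ → ℂ → ℂ, AdmissibleCoeffs l f a → ¬ ConstInDisc (diffPoly l a f) →
      PropertyV (diffPoly l a f)

end Pool.Agent.Helper61.Nev
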