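import Pool.Agent.Helper61.Nev.Main2

/-!
# The conclusion: `α(f) ≤ l + 1` if a nonzero value is taken finitely often
-/

set_option autoImplicit false

open MeasureTheory Real Set Metric Filter Topology MeromorphicOn Asymptotics

namespace Pool.Agent.Helper61.Nev

lemma nz_of_not_const {f : ℂ → ℂ} (hf : MeromorphicOn f (ball 0 1)) (h : ¬ ConstInDisc f) (c : ℂ) :
    NZ fun z => f z - c := by
  rcases nz_or_zero (mero_sub_const hf c) with h1 | h1
  · exact h1
  · refine absurd ⟨c, ?_⟩ h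
    filter_upwards [h1] with z hz
    have : f z - c = 0 := hz
    linear_combination this

lemma nz_of_not_const' {f : ℂ → ℂ} (hf : MeromorphicOn f (ball 0 1)) (h : ¬ ConstInDisc f) :
    NZ f := by
  have h1 := nz_of_not_const hf h 0
  have h2 : (fun z => f z - 0) = f := by
    funext z
    simp
  rwa [h2] at h1

lemma nz_deriv_of_not_const {f : ℂ → ℂ} (hf : MeromorphicOn f (ball 0 1)) (h : ¬ ConstInDisc f) :
    NZ (deriv f) := by
  rcases nz_or_zero hf.deriv with h1 | h1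
  · exact h1
  · exfalso
    have h2 : ∀ᶠ z in codiscreteWithin (ball (0 : ℂ) 1), AnalyticAt ℂ f z :=
      hf.analyticAt_mem_codiscreteWithin
    have h3 := eventually_nhds_of_codiscreteWithin isOpen_ball (h1.and h2)
    have h4 := forall_nhdsNE_of_codisc h3 (mem_ball_self one_pos)
    have h5 : ∀ᶠ z in 𝓝[≠] (0 : ℂ), z ∈ ball (0 : ℂ) 1 :=
      mem_nhdsWithin_of_mem_nhds (isOpen_ball.mem_nhds (mem_ball_self one_pos))
    obtain ⟨z₀, hz₀, hz₀b⟩ := (h4.and h5).exists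
    obtain ⟨δ, hδ, hball⟩ := Metric.eventually_nhds_iff_ball.1 hz₀
    have h6 := nz_of_not_const hf h (f z₀) z₀ hz₀b
    apply h6
    rw [meromorphicOrderAt_eq_top_iff]
    have h7 : ∀ᶠ z in 𝓝 z₀, f z - f z₀ = 0 := by
      filter_upwards [ball_mem_nhds z₀ hδ] with z hz
      have h8 : DifferentiableOn ℂ f (ball z₀ δ) := fun y hy =>
        ((hball y hy).2.differentiableAt).differentiableWithinAt
      have h9 : (ball z₀ δ).EqOn (deriv f) 0 := fun y hy => (hball y hy).1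
      rw [isOpen_ball.is_const_of_deriv_eq_zero (convex_ball z₀ δ).isPreconnected h8 h9 hz
        (mem_ball_self hδ), sub_self]
    exact h7.filter_mono nhdsWithin_le_nhds

lemma Lr_pos {r : ℝ} (h0 : 0 < r) (h1 : r < 1) : 0 < Lr r := by
  unfold Lr
  have := log_neg (by linarith : (0 : ℝ) < 1 - r) (by linarith)
  linarith

lemma tendsto_Lr : Tendsto Lr (𝓝[<] 1) atTop := by
  unfold Lr
  have h1 : Tendsto (fun r : ℝ => 1 - r) (𝓝[<] 1) (𝓝[>] 0) := by
    refine tendsto_nhdsWithin_iff.2 ⟨?_, ?_⟩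
    · have : Tendsto (fun r : ℝ => 1 - r) (𝓝 1) (𝓝 (1 - 1)) :=
        (continuous_const.sub continuous_id).tendsto 1
      rw [sub_self] at this
      exact this.mono_left nhdsWithin_le_nhds
    · filter_upwards [self_mem_nhdsWithin] with r hr
      rw [mem_Iio] at hr
      rw [mem_Ioi]
      linarith
  exact tendsto_neg_atBot_atTop.comp (tendsto_log_nhdsGT_zero.comp h1)

lemma growth_of_alpha {f : ℂ → ℂ} (hf : MeromorphicOn f (ball 0 1)) (h : alpha f < ⊤) :
    GrowthOK f := by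
  obtain ⟨A, hA1, hA2⟩ := EReal.lt_iff_exists_real_btwn.1 h
  have h1 := eventually_lt_of_limsup_lt hA1
  refine ⟨|A| + pm f 0 * log 2, ?_, ?_⟩
  · have : (0 : ℝ) ≤ pm f 0 := by exact_mod_cast pm_nonneg f 0
    positivity
  filter_upwards [h1, half_lt_eventually] with r hr hr2
  have h0 : 0 < r := by linarith [hr2.1]
  have hL := Lr_pos h0 hr2.2
  have h2 : charT f r / Lr r < A := by exact_mod_cast hr
  rw [div_lt_iff₀ hL] at h2
  have h3 := Ts_le_charT hf hr2.1 hr2.2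
  have h4 : (0 : ℝ) ≤ pm f 0 := by exact_mod_cast pm_nonneg f 0
  have h5 : 0 ≤ log 2 := log_nonneg (by norm_num)
  have h6 : A * Lr r ≤ |A| * Lr r := by gcongr; exact le_abs_self A
  have h7 : 0 ≤ pm f 0 * log 2 * Lr r := by positivity
  have h8 := abs_nonneg A
  nlinarith

lemma abs_charT_le {f : ℂ → ℂ} (hf : MeromorphicOn f (ball 0 1)) {r : ℝ} (h0 : 1 / 2 ≤ r)
    (h1 : r < 1) : |charT f r| ≤ Ts f r + pm f 0 * log 2 := by
  have h2 := charT_le hf (by linarith : 0 < r) h1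
  have h3 := Ts_le_charT hf h0 h1
  have h4 : (0 : ℝ) ≤ pm f 0 := by exact_mod_cast pm_nonneg f 0
  have h5 : 0 ≤ log 2 := log_nonneg (by norm_num)
  have h6 : 0 ≤ pm f 0 * log 2 := by positivity
  have h7 := Ts_nonneg f r
  rw [abs_le]
  constructor <;> linarith

lemma small_Ts {f a : ℂ → ℂ} (hf : MeromorphicOn f (ball 0 1)) (ha : MeromorphicOn a (ball 0 1))
    (h : charT a =o[𝓝[<] 1] charT f) {η : ℝ} (hη : 0 < η) :
    ∃ C : ℝ, 0 ≤ C ∧ ∀ᶠ r : ℝ in 𝓝[<] 1, Ts a r ≤ η * Ts f r + C := by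
  have h1 := (isLittleO_iff.1 h) hη
  have h4 : (0 : ℝ) ≤ pm f 0 := by exact_mod_cast pm_nonneg f 0
  have h4' : (0 : ℝ) ≤ pm a 0 := by exact_mod_cast pm_nonneg a 0
  have h5 : 0 ≤ log 2 := log_nonneg (by norm_num)
  refine ⟨η * (pm f 0 * log 2) + pm a 0 * log 2, by positivity, ?_⟩
  filter_upwards [h1, half_lt_eventually] with r hr hr2
  rw [Real.norm_eq_abs, Real.norm_eq_abs] at hr
  have h2 := abs_charT_le hf hr2.1 hr2.2
  have h3 := Ts_le_charT ha hr2.1 hr2.2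
  have h6 := le_abs_self (charT a r)
  have h7 : η * |charT f r| ≤ η * (Ts f r + pm f 0 * log 2) := by gcongr
  linarith

lemma growth_of_small {f a : ℂ → ℂ} (hf : MeromorphicOn f (ball 0 1))
    (ha : MeromorphicOn a (ball 0 1)) (hG : GrowthOK f) (h : charT a =o[𝓝[<] 1] charT f) :
    GrowthOK a := by
  obtain ⟨C, hC, h1⟩ := small_Ts hf ha h one_pos
  obtain ⟨A, hA, h2⟩ := hG
  refine ⟨A + C, by positivity, ?_⟩
  filter_upwards [h1, h2, half_lt_eventually] with r hr1 hr2 hr3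
  have h0 : 0 < r := by linarith [hr3.1]
  have hL := Lr_nonneg h0.le hr3.2
  nlinarith

/-- The main inequality. -/
theorem Ts_le_of_finite {l : ℕ} {a : ℕ → ℂ → ℂ} {f : ℂ → ℂ} (hf : Admissible f)
    (ha : AdmissibleCoeffs l f a) (hΨ : ¬ ConstInDisc (diffPoly l a f)) {w : ℂ} (hw : w ≠ 0)
    (hW : {z : ℂ | z ∈ ball (0 : ℂ) 1 ∧
      0 < meromorphicOrderAt (fun ζ => diffPoly l a f ζ - w) z}.Finite) {ε : ℝ} (hε : 0 < ε) :
    ∃ C : ℝ, ∀ᶠ r : ℝ in 𝓝[<] 1, (1 - ε) * Ts f r ≤ (l + 1) * (1 + ε) * Lr r + C := by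
  classical
  have hfM := hf.mero
  have hG : GrowthOK f := growth_of_alpha hfM hf.alpha_lt
  have hnz : NZ f := nz_of_not_const' hfM hf.nonconst
  have haG : ∀ ν ≤ l, GrowthOK (a ν) := fun ν hν =>
    growth_of_small hfM (ha.mero ν hν) hG (ha.small ν hν)
  have hΨM := mero_diffPoly hfM ha.mero
  have hΨG := growth_diffPoly hfM ha.mero hG haG
  have hΨnz : NZ (diffPoly l a f) := nz_of_not_const' hΨM hΨ
  have hEnz := nz_of_not_const hΨM hΨ w
  have hDnz := nz_deriv_of_not_const hΨM hΨ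
  obtain ⟨C₁, h1⟩ := prox_inv_le hΨM hΨG hΨnz hw hEnz hDnz hε
  obtain ⟨C₂, h2⟩ := Ns_logDeriv_le hfM ha.mero hEnz hW hf.poles
  obtain ⟨C₃, h3⟩ := Ns_inv_le hfM hf.zeros
  obtain ⟨C₄, hC₄, h4⟩ := first_main hfM
  have h5 : ∀ j : ℕ, ∃ C : ℝ, 0 ≤ C ∧ ∀ᶠ r : ℝ in 𝓝[<] 1,
      prox (logDeriv (iteratedDeriv j f)) r ≤ (1 + ε) * Lr r + C := fun j =>
    prox_logDeriv_le (mero_iter hfM j) (growth_iter hfM hG j) hε
  choose C₅ hC₅ h5 using h5
  set η : ℝ := ε / (2 * (l + 1)) with hη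
  have hη0 : 0 < η := by positivity
  have h6 : ∀ ν : ℕ, ∃ C : ℝ, ν ≤ l → (0 ≤ C ∧ ∀ᶠ r : ℝ in 𝓝[<] 1, Ts (a ν) r ≤ η * Ts f r + C) := by
    intro ν
    by_cases hν : ν ≤ l
    · obtain ⟨C, hC⟩ := small_Ts hfM (ha.mero ν hν) (ha.small ν hν) hη0
      exact ⟨C, fun _ => hC⟩
    · exact ⟨0, fun h => absurd h hν⟩
  choose C₆ h6 using h6
  have h5' : ∀ᶠ r : ℝ in 𝓝[<] 1, ∀ j ∈ Finset.range l,
      prox (logDeriv (iteratedDeriv j f)) r ≤ (1 + ε) * Lr r + C₅ j :=
    (eventually_all_finset _).2 fun j _ => h5 j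
  have h6' : ∀ᶠ r : ℝ in 𝓝[<] 1, ∀ ν ∈ Finset.range (l + 1),
      Ts (a ν) r ≤ η * Ts f r + C₆ ν :=
    (eventually_all_finset _).2 fun ν hν => (h6 ν (by simpa [Nat.lt_succ_iff] using hν)).2
  have hq := diffPoly_quot_le (l := l) (a := a) hfM hnz
  refine ⟨C₁ + C₂ + C₃ + C₄ + log (l + 1) + ∑ j ∈ Finset.range l, C₅ j +
    2 * ∑ ν ∈ Finset.range (l + 1), C₆ ν, ?_⟩
  filter_upwards [h1, h5', h6', half_lt_eventually] with r hr1 hr5 hr6 hr
  have h0 : 0 < r := by linarith [hr.1]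
  have hL := Lr_nonneg h0.le hr.2
  -- first main theorem
  have e1 : Ts f r ≤ prox f⁻¹ r + C₃ + C₄ := by
    have := (abs_le.1 (h4 r hr.1 hr.2)).2
    have h7 := h3 r h0 hr.2
    have h8 : Ts f⁻¹ r = prox f⁻¹ r + Ns f⁻¹ r := rfl
    linarith
  -- splitting
  have hqM : MeromorphicOn (fun z => diffPoly l a f z / f z) (ball 0 1) := hΨM.div hfM
  have e2 : prox f⁻¹ r ≤ prox (fun z => diffPoly l a f z / f z) r + prox (diffPoly l a f)⁻¹ r := by
    have h7 : f⁻¹ =ᶠ[codiscreteWithin (ball (0 : ℂ) 1)]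
        (fun z => diffPoly l a f z / f z) * (diffPoly l a f)⁻¹ := by
      filter_upwards [hΨnz.ae_ne hΨM, hnz.ae_ne hfM] with z hz hz2
      rw [Pi.mul_apply, Pi.inv_apply, Pi.inv_apply]
      field_simp
    rw [prox_congr h7 h0 hr.2]
    exact prox_mul_le hqM hΨM.inv h0 hr.2
  -- the quotient
  have e3 : prox (fun z => diffPoly l a f z / f z) r ≤
      ∑ ν ∈ Finset.range (l + 1), prox (a ν) r +
        ∑ j ∈ Finset.range l, prox (logDeriv (iteratedDeriv j f)) r + log (l + 1) := by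
    have hi1 : ∀ ν ∈ Finset.range (l + 1), CircleIntegrable (fun z => log⁺ ‖a ν z‖) 0 r :=
      fun ν hν => ci_posLog (ha.mero ν (by simpa [Nat.lt_succ_iff] using hν)) h0 hr.2
    have hi2 : ∀ j ∈ Finset.range l,
        CircleIntegrable (fun z => log⁺ ‖logDeriv (iteratedDeriv j f) z‖) 0 r :=
      fun j _ => ci_posLog (mero_iter hfM j).logDeriv h0 hr.2
    have hs1 := CircleIntegrable.fun_sum _ hi1
    have hs2 := CircleIntegrable.fun_sum _ hi2
    have hs12 : CircleIntegrable (fun z => ∑ ν ∈ Finset.range (l + 1), log⁺ ‖a ν z‖ +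
        ∑ j ∈ Finset.range l, log⁺ ‖logDeriv (iteratedDeriv j f) z‖) 0 r := hs1.add hs2
    have h7 : circleAverage (fun z => (∑ ν ∈ Finset.range (l + 1), log⁺ ‖a ν z‖ +
        ∑ j ∈ Finset.range l, log⁺ ‖logDeriv (iteratedDeriv j f) z‖) + log (l + 1)) 0 r =
        ∑ ν ∈ Finset.range (l + 1), prox (a ν) r +
        ∑ j ∈ Finset.range l, prox (logDeriv (iteratedDeriv j f)) r + log (l + 1) := by
      rw [circleAverage_fun_add hs12 (circleIntegrable_const _ 0 r),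
        circleAverage_fun_add hs1 hs2, circleAverage_const, circleAverage_fun_sum hi1,
        circleAverage_fun_sum hi2]
      rfl
    rw [← h7]
    refine circleAverage_mono_codisc h0.ne' (ci_posLog hqM h0 hr.2)
      (hs12.add (circleIntegrable_const _ 0 r)) ?_
    exact codisc_circle hq h0 hr.2
  have e4 : ∑ j ∈ Finset.range l, prox (logDeriv (iteratedDeriv j f)) r ≤
      l * ((1 + ε) * Lr r) + ∑ j ∈ Finset.range l, C₅ j := by
    refine (Finset.sum_le_sum hr5).trans (le_of_eq ?_)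
    rw [Finset.sum_add_distrib, Finset.sum_const, Finset.card_range, nsmul_eq_mul]
  have e5 : ∑ ν ∈ Finset.range (l + 1), prox (a ν) r ≤ ∑ ν ∈ Finset.range (l + 1), Ts (a ν) r := by
    refine Finset.sum_le_sum fun ν _ => ?_
    have := Ns_nonneg (a ν) r
    unfold Ts
    linarith
  have e6 : ∑ ν ∈ Finset.range (l + 1), Ns (a ν) r ≤ ∑ ν ∈ Finset.range (l + 1), Ts (a ν) r := by
    refine Finset.sum_le_sum fun ν _ => ?_
    have := prox_nonneg (a ν) r
    unfold Ts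
    linarith
  have e7 : ∑ ν ∈ Finset.range (l + 1), Ts (a ν) r ≤
      (l + 1) * (η * Ts f r) + ∑ ν ∈ Finset.range (l + 1), C₆ ν := by
    refine (Finset.sum_le_sum hr6).trans (le_of_eq ?_)
    rw [Finset.sum_add_distrib, Finset.sum_const, Finset.card_range, nsmul_eq_mul]
    push_cast
    ring
  have e8 := h2 r h0 hr.2
  have e9 : 2 * ((l + 1) * (η * Ts f r)) = ε * Ts f r := by
    rw [hη]
    have : (l : ℝ) + 1 ≠ 0 := by positivity
    field_simp
  nlinarith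

/-- The threshold: if a nonzero value is taken finitely often, then `α(f) ≤ l + 1`. -/
theorem alpha_le_of_finite {l : ℕ} {a : ℕ → ℂ → ℂ} {f : ℂ → ℂ} (hf : Admissible f)
    (ha : AdmissibleCoeffs l f a) (hΨ : ¬ ConstInDisc (diffPoly l a f)) {w : ℂ} (hw : w ≠ 0)
    (hW : {z : ℂ | z ∈ ball (0 : ℂ) 1 ∧
      0 < meromorphicOrderAt (fun ζ => diffPoly l a f ζ - w) z}.Finite) :
    alpha f ≤ ((l + 1 : ℝ) : EReal) := by
  refine le_of_forall_gt_imp_ge_of_dense fun b hb => ?_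
  rcases eq_or_ne b ⊤ with rfl | hbt
  · exact le_top
  obtain ⟨B, rfl⟩ : ∃ B : ℝ, (B : EReal) = b :=
    ⟨b.toReal, EReal.coe_toReal hbt (ne_bot_of_gt hb)⟩
  have hB : (l + 1 : ℝ) < B := by exact_mod_cast hb
  -- choose ε
  obtain ⟨ε, hε0, hε1, hεB⟩ : ∃ ε : ℝ, 0 < ε ∧ ε < 1 ∧ (l + 1) * (1 + ε) < B * (1 - ε) := by
    have hl : (0 : ℝ) ≤ l := Nat.cast_nonneg l
    refine ⟨min (1 / 2) ((B - (l + 1)) / (2 * (B + (l + 1)))), ?_, ?_, ?_⟩
    · have : 0 < (B - (l + 1)) / (2 * (B + (l + 1))) := div_pos (by linarith) (by linarith)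
      exact lt_min (by norm_num) this
    · exact (min_le_left _ _).trans_lt (by norm_num)
    · have h1 : min (1 / 2) ((B - (l + 1)) / (2 * (B + (l + 1)))) * (B + (l + 1)) ≤
          (B - (l + 1)) / 2 := by
        calc _ ≤ ((B - (l + 1)) / (2 * (B + (l + 1)))) * (B + (l + 1)) := by
              refine mul_le_mul_of_nonneg_right (min_le_right _ _) (by linarith)
          _ = _ := by
              have : B + (l + 1) ≠ 0 := by linarith
              field_simp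
      nlinarith
  obtain ⟨C, hC⟩ := Ts_le_of_finite hf ha hΨ hw hW hε0
  have hev : ∀ᶠ r : ℝ in 𝓝[<] 1, C / (B * (1 - ε) - (l + 1) * (1 + ε)) ≤ Lr r :=
    tendsto_Lr.eventually_ge_atTop _
  unfold alpha
  refine limsup_le_of_le (by isBoundedDefault) ?_
  filter_upwards [hC, hev, half_lt_eventually] with r hr1 hr2 hr3
  have h0 : 0 < r := by linarith [hr3.1]
  have hL := Lr_pos h0 hr3.2
  have h1 := charT_le hf.mero h0 hr3.2
  have h2 : charT f r / Lr r ≤ B := by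
    rw [div_le_iff₀ hL]
    have h3 : 0 < B * (1 - ε) - (l + 1) * (1 + ε) := by linarith
    rw [div_le_iff₀ h3] at hr2
    have h4 : (1 - ε) * Ts f r ≤ (1 - ε) * (B * Lr r) := by nlinarith
    have h5 : Ts f r ≤ B * Lr r := le_of_mul_le_mul_left h4 (by linarith)
    linarith
  exact_mod_cast h2

end Pool.Agent.Helper61.Nev
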