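import Mathlib

/-!
# The logarithmic derivative of a zero-free function in the mean
-/

set_option autoImplicit false

open MeasureTheory Real intervalIntegral Set Metric

namespace Pool.Agent.Helper61.Nev

/-- The logarithmic derivative of a zero-free analytic function, by the Herglotz formula. -/
theorem logDeriv_eq_circleAverage {g : ℂ → ℂ} {R : ℝ}
    (hg : AnalyticOnNhd ℂ g (closedBall 0 R)) (h0 : ∀ z ∈ closedBall (0 : ℂ) R, g z ≠ 0)
    {w : ℂ} (hw : w ∈ ball (0 : ℂ) R) :
    deriv g w / g w =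
      circleAverage (fun ζ => (2 * ζ / (ζ - w) ^ 2) • ((Real.log ‖g ζ‖ : ℝ) : ℂ)) 0 R := by
  have hR : 0 < R := pos_of_mem_ball hw
  have hint : CircleIntegrable (fun ζ => Real.log ‖g ζ‖) 0 R := by
    refine MeromorphicOn.circleIntegrable_log_norm fun z hz => (hg z ?_).meromorphicAt
    rw [abs_of_pos hR] at hz
    exact sphere_subset_closedBall hz
  have hint' : CircleIntegrable (fun ζ => ((Real.log ‖g ζ‖ : ℝ) : ℂ)) 0 R := by
    simp only [CircleIntegrable, intervalIntegrable_iff] at hint ⊢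
    exact Complex.ofRealCLM.integrable_comp hint
  set H : ℂ → ℂ := fun w =>
    circleAverage (fun ζ => herglotzRieszKernel 0 w ζ • ((Real.log ‖g ζ‖ : ℝ) : ℂ)) 0 R with hH
  have hHd : ∀ v ∈ ball (0 : ℂ) R, HasDerivAt H
      (circleAverage (fun ζ => (2 * ζ / (ζ - v) ^ 2) • ((Real.log ‖g ζ‖ : ℝ) : ℂ)) 0 R) v :=
    fun v hv => hasDerivAt_circleAverage_herglotzRieszKernel_smul hint' hv
  have hRe : ∀ v ∈ ball (0 : ℂ) R, (H v).re = Real.log ‖g v‖ := by
    intro v hv
    have h1 := re_circleAverage_herglotzRieszKernel_smul hint hv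
    have h2 : InnerProductSpace.HarmonicOnNhd (fun ζ => Real.log ‖g ζ‖) (closedBall 0 R) :=
      fun z hz => (hg z hz).harmonicAt_log_norm (h0 z hz)
    have h3 := h2.circleAverage_re_herglotzRieszKernel_smul hv
    rw [← h3, ← h1]
  have hgd : ∀ v ∈ ball (0 : ℂ) R, DifferentiableAt ℂ g v :=
    fun v hv => (hg v (ball_subset_closedBall hv)).differentiableAt
  have hg0 : ∀ v ∈ ball (0 : ℂ) R, g v ≠ 0 := fun v hv => h0 v (ball_subset_closedBall hv)
  set φ : ℂ → ℂ := fun v => Complex.exp (H v) / g v with hφ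
  have hφd : DifferentiableOn ℂ φ (ball 0 R) := by
    intro v hv
    exact (((hHd v hv).differentiableAt.cexp).div (hgd v hv) (hg0 v hv)).differentiableWithinAt
  have hφn : ∀ v ∈ ball (0 : ℂ) R, ‖φ v‖ = 1 := by
    intro v hv
    have h1 : 0 < ‖g v‖ := norm_pos_iff.2 (hg0 v hv)
    rw [hφ]
    simp only [norm_div, Complex.norm_exp]
    rw [hRe v hv, Real.exp_log h1, div_self h1.ne']
  have hconst := Complex.eqOn_of_isPreconnected_of_isMaxOn_norm
    (convex_ball (0 : ℂ) R).isPreconnected isOpen_ball hφd hw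
    (fun v hv => by
      change ‖φ v‖ ≤ ‖φ w‖
      rw [hφn v hv, hφn w hw])
  have hderiv : HasDerivAt φ 0 w := by
    have h1 : φ =ᶠ[nhds w] Function.const ℂ (φ w) :=
      hconst.eventuallyEq_of_mem (isOpen_ball.mem_nhds hw)
    exact (hasDerivAt_const w (φ w)).congr_of_eventuallyEq h1
  have hderiv2 := (((hHd w hw).cexp).div (hgd w hw).hasDerivAt (hg0 w hw)).unique hderiv
  have hgw := hg0 w hw
  have hexp := Complex.exp_ne_zero (H w)
  rw [div_eq_zero_iff] at hderiv2
  rcases hderiv2 with h1 | h1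
  · rw [div_eq_iff hgw]
    have h2 : Complex.exp (H w) * (circleAverage (fun ζ => (2 * ζ / (ζ - w) ^ 2) •
        ((Real.log ‖g ζ‖ : ℝ) : ℂ)) 0 R * g w - deriv g w) = 0 := by
      linear_combination h1
    rcases mul_eq_zero.1 h2 with h3 | h3
    · exact absurd h3 hexp
    · linear_combination -h3
  · exact absurd h1 (pow_ne_zero 2 hgw)

lemma norm_circleMap_sub_swap (R r θ φ : ℝ) :
    ‖circleMap 0 R θ - circleMap 0 r φ‖ = ‖circleMap 0 R φ - circleMap 0 r θ‖ := by
  have h1 : circleMap 0 R φ - circleMap 0 r θ =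
      (starRingEnd ℂ) (circleMap 0 R θ - circleMap 0 r φ) *
        Complex.exp (((θ + φ : ℝ) : ℂ) * Complex.I) := by
    simp only [circleMap_zero, map_sub, map_mul, Complex.conj_ofReal, ← Complex.exp_conj,
      Complex.conj_I]
    rw [sub_mul, mul_assoc, mul_assoc, ← Complex.exp_add, ← Complex.exp_add]
    congr 3
    · push_cast; ring
    · push_cast; ring
  rw [h1, norm_mul, Complex.norm_exp_ofReal_mul_I, mul_one, Complex.norm_conj]

lemma norm_circleMap_sub_pos {R r : ℝ} (hr : 0 < r) (hrR : r < R) (θ φ : ℝ) :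
    0 < ‖circleMap 0 R θ - circleMap 0 r φ‖ := by
  have h1 := norm_sub_norm_le (circleMap 0 R θ) (circleMap 0 r φ)
  rw [norm_circleMap_zero, norm_circleMap_zero, abs_of_pos hr, abs_of_pos (hr.trans hrR)] at h1
  linarith

/-- The mean of the Poisson kernel over the small circle. -/
lemma integral_inv_norm_sq {R r : ℝ} (hr : 0 < r) (hrR : r < R) (θ : ℝ) :
    ∫ φ in (0 : ℝ)..2 * π, (‖circleMap 0 R θ - circleMap 0 r φ‖ ^ 2)⁻¹ =
      2 * π * (R ^ 2 - r ^ 2)⁻¹ := by
  have hR : 0 < R := hr.trans hrR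
  have hRr : 0 < R ^ 2 - r ^ 2 := by nlinarith
  have hw : circleMap 0 r θ ∈ ball (0 : ℂ) R := by
    rw [mem_ball_zero_iff, norm_circleMap_zero, abs_of_pos hr]
    exact hrR
  have h1 : DiffContOnCl ℂ (fun _ : ℂ => (1 : ℂ)) (ball 0 R) := diffContOnCl_const
  have h2 := h1.circleAverage_poissonKernel_smul' hw
  simp only [sub_zero] at h2
  have h3 : ∀ φ : ℝ, (((‖circleMap 0 R φ‖ ^ 2 - ‖circleMap 0 r θ‖ ^ 2) /
      ‖circleMap 0 R φ - circleMap 0 r θ‖ ^ 2) • (1 : ℂ)) =
      (((R ^ 2 - r ^ 2) * (‖circleMap 0 R θ - circleMap 0 r φ‖ ^ 2)⁻¹ : ℝ) : ℂ) := by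
    intro φ
    rw [norm_circleMap_zero, norm_circleMap_zero, abs_of_pos hr, abs_of_pos hR,
      norm_circleMap_sub_swap R r φ θ, Complex.real_smul, mul_one, div_eq_mul_inv]
  rw [circleAverage_def] at h2
  simp_rw [h3] at h2
  rw [intervalIntegral.integral_ofReal, intervalIntegral.integral_const_mul, Complex.real_smul,
    ← Complex.ofReal_mul] at h2
  have h4 : (2 * π)⁻¹ * ((R ^ 2 - r ^ 2) *
      ∫ φ in (0 : ℝ)..2 * π, (‖circleMap 0 R θ - circleMap 0 r φ‖ ^ 2)⁻¹) = 1 := by
    exact_mod_cast h2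
  have hpi : (0 : ℝ) < 2 * π := by positivity
  field_simp at h4 ⊢
  linarith

/-- The mean of the logarithmic derivative of a zero-free function. -/
theorem circleAverage_norm_logDeriv_le {g : ℂ → ℂ} {R r : ℝ} (hr : 0 < r) (hrR : r < R)
    (hg : AnalyticOnNhd ℂ g (closedBall 0 R)) (h0 : ∀ z ∈ closedBall (0 : ℂ) R, g z ≠ 0) :
    circleAverage (fun z => ‖deriv g z / g z‖) 0 r ≤
      2 * R / (R ^ 2 - r ^ 2) * circleAverage (fun ζ => |Real.log ‖g ζ‖|) 0 R := by
  have hR : 0 < R := hr.trans hrR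
  have hRr : 0 < R ^ 2 - r ^ 2 := by nlinarith
  have hpi : (0 : ℝ) ≤ 2 * π := by positivity
  set u : ℝ → ℝ := fun θ => |Real.log ‖g (circleMap 0 R θ)‖| with hu
  have hmem : ∀ θ, circleMap 0 R θ ∈ closedBall (0 : ℂ) R := circleMap_mem_closedBall 0 hR.le
  have hucont : Continuous u := by
    have h1 : Continuous fun θ => g (circleMap 0 R θ) :=
      (hg.continuousOn.comp_continuous (continuous_circleMap 0 R) hmem)
    have h2 : Continuous fun θ => Real.log ‖g (circleMap 0 R θ)‖ :=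
      h1.norm.log fun θ => (norm_pos_iff.2 (h0 _ (hmem θ))).ne'
    exact h2.abs
  set K : ℝ → ℝ → ℝ := fun φ θ => (‖circleMap 0 R θ - circleMap 0 r φ‖ ^ 2)⁻¹ with hK
  have hKcont : Continuous (Function.uncurry K) := by
    have h1 : Continuous fun x : ℝ × ℝ => ‖circleMap 0 R x.2 - circleMap 0 r x.1‖ ^ 2 := by
      fun_prop
    refine h1.inv₀ fun x => ?_
    exact (pow_pos (norm_circleMap_sub_pos hr hrR _ _) 2).ne'
  -- pointwise estimate
  have hpt : ∀ φ : ℝ, ‖deriv g (circleMap 0 r φ) / g (circleMap 0 r φ)‖ ≤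
      (2 * π)⁻¹ * ∫ θ in (0 : ℝ)..2 * π, 2 * R * (K φ θ * u θ) := by
    intro φ
    have hw : circleMap 0 r φ ∈ ball (0 : ℂ) R := by
      rw [mem_ball_zero_iff, norm_circleMap_zero, abs_of_pos hr]
      exact hrR
    rw [logDeriv_eq_circleAverage hg h0 hw, circleAverage_def, norm_smul, norm_inv,
      norm_of_nonneg hpi]
    refine mul_le_mul_of_nonneg_left ?_ (by positivity)
    refine (intervalIntegral.norm_integral_le_integral_norm hpi).trans (le_of_eq ?_)
    refine intervalIntegral.integral_congr fun θ _ => ?_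
    rw [norm_smul, norm_div, norm_mul, norm_pow, Complex.norm_real, norm_circleMap_zero,
      abs_of_pos hR, Real.norm_eq_abs]
    have : ‖(2 : ℂ)‖ = 2 := by norm_num
    rw [this, hK]
    simp only [hu]
    ring
  have hFint : Continuous (Function.uncurry fun φ θ => 2 * R * (K φ θ * u θ)) := by
    have h1 : Continuous fun x : ℝ × ℝ => u x.2 := hucont.comp continuous_snd
    exact continuous_const.mul (hKcont.mul h1)
  have hcontg : Continuous fun φ => ‖deriv g (circleMap 0 r φ) / g (circleMap 0 r φ)‖ := by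
    have hm : ∀ φ, circleMap 0 r φ ∈ closedBall (0 : ℂ) R := fun φ =>
      closedBall_subset_closedBall hrR.le (circleMap_mem_closedBall 0 hr.le φ)
    have h1 : Continuous fun φ => g (circleMap 0 r φ) :=
      (hg.continuousOn.comp_continuous (continuous_circleMap 0 r) hm)
    have h2 : Continuous fun φ => deriv g (circleMap 0 r φ) :=
      (hg.deriv.continuousOn.comp_continuous (continuous_circleMap 0 r) hm)
    exact (h2.div h1 fun φ => h0 _ (hm φ)).norm
  have hswap : ∫ φ in (0 : ℝ)..2 * π, ∫ θ in (0 : ℝ)..2 * π, 2 * R * (K φ θ * u θ) =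
      ∫ θ in (0 : ℝ)..2 * π, ∫ φ in (0 : ℝ)..2 * π, 2 * R * (K φ θ * u θ) := by
    refine intervalIntegral_intervalIntegral_swap ?_
    refine (hFint.continuousOn.integrableOn_compact
      (K := uIcc 0 (2 * π) ×ˢ uIcc 0 (2 * π)) (isCompact_uIcc.prod isCompact_uIcc)).mono_set ?_
    exact prod_mono uIoc_subset_uIcc uIoc_subset_uIcc
  rw [circleAverage_def, circleAverage_def, smul_eq_mul, smul_eq_mul]
  calc (2 * π)⁻¹ * ∫ φ in (0 : ℝ)..2 * π, ‖deriv g (circleMap 0 r φ) / g (circleMap 0 r φ)‖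
      ≤ (2 * π)⁻¹ * ∫ φ in (0 : ℝ)..2 * π,
          (2 * π)⁻¹ * ∫ θ in (0 : ℝ)..2 * π, 2 * R * (K φ θ * u θ) := by
        refine mul_le_mul_of_nonneg_left ?_ (by positivity)
        refine intervalIntegral.integral_mono_on hpi (hcontg.intervalIntegrable _ _) ?_
          fun φ _ => hpt φ
        refine Continuous.intervalIntegrable ?_ _ _
        exact continuous_const.mul
          (intervalIntegral.continuous_parametric_intervalIntegral_of_continuous' hFint _ _)
    _ = (2 * π)⁻¹ * ((2 * π)⁻¹ * ∫ θ in (0 : ℝ)..2 * π, ∫ φ in (0 : ℝ)..2 * π,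
          2 * R * (K φ θ * u θ)) := by
        rw [intervalIntegral.integral_const_mul, hswap]
    _ = (2 * π)⁻¹ * ((2 * π)⁻¹ * ∫ θ in (0 : ℝ)..2 * π,
          2 * R * u θ * (2 * π * (R ^ 2 - r ^ 2)⁻¹)) := by
        congr 2
        refine intervalIntegral.integral_congr fun θ _ => ?_
        change (∫ φ in (0 : ℝ)..2 * π, 2 * R * (K φ θ * u θ)) = _
        rw [← integral_inv_norm_sq hr hrR θ, ← intervalIntegral.integral_const_mul]
        refine intervalIntegral.integral_congr fun φ _ => ?_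
        simp only [hK]
        ring
    _ = 2 * R / (R ^ 2 - r ^ 2) * ((2 * π)⁻¹ * ∫ θ in (0 : ℝ)..2 * π, u θ) := by
        rw [intervalIntegral.integral_mul_const, intervalIntegral.integral_const_mul]
        have : (2 * π : ℝ) ≠ 0 := by positivity
        field_simp

end Pool.Agent.Helper61.Nev
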