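import Pool.Agent.Helper61.Nev.Kernel
import Pool.Agent.Helper61.Nev.ZeroFree

/-!
# A dominating function for the `p`-th power of a logarithmic derivative
-/

set_option autoImplicit false

open MeasureTheory Real intervalIntegral Set Metric Filter Topology MeromorphicOn Complex
  ComplexConjugate

namespace Pool.Agent.Helper61.Nev

/-- Circle averages respect inequalities off a discrete set. -/
lemma circleAverage_mono_codisc {c : ℂ} {R : ℝ} (hR : R ≠ 0) {f₁ f₂ : ℂ → ℝ}
    (hf₁ : CircleIntegrable f₁ c R) (hf₂ : CircleIntegrable f₂ c R)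
    (h : ∀ᶠ x in codiscreteWithin (sphere c |R|), f₁ x ≤ f₂ x) :
    circleAverage f₁ c R ≤ circleAverage f₂ c R := by
  have h1 : f₁ =ᶠ[codiscreteWithin (sphere c |R|)] fun x => min (f₁ x) (f₂ x) := by
    filter_upwards [h] with x hx
    rw [min_eq_left hx]
  rw [circleAverage_congr_codiscreteWithin h1 hR]
  refine circleAverage_mono (hf₁.congr_codiscreteWithin h1) hf₂ fun x _ => min_le_right _ _

lemma rpow_add_le' {a b p : ℝ} (ha : 0 ≤ a) (hb : 0 ≤ b) (hp0 : 0 ≤ p) (hp1 : p ≤ 1) :
    (a + b) ^ p ≤ a ^ p + b ^ p := by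
  have := NNReal.rpow_add_le_add_rpow ⟨a, ha⟩ ⟨b, hb⟩ hp0 hp1
  exact_mod_cast this

lemma rpow_sum_le' {ι : Type*} (s : Finset ι) (x : ι → ℝ) (hx : ∀ i, 0 ≤ x i) {p : ℝ}
    (hp0 : 0 < p) (hp1 : p ≤ 1) : (∑ i ∈ s, x i) ^ p ≤ ∑ i ∈ s, x i ^ p := by
  classical
  induction s using Finset.induction_on with
  | empty => simp [Real.zero_rpow hp0.ne']
  | insert a s ha ih =>
    rw [Finset.sum_insert ha, Finset.sum_insert ha]
    exact (rpow_add_le' (hx a) (Finset.sum_nonneg fun i _ => hx i) hp0.le hp1).trans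
      (by gcongr)

lemma rpow_le_one_add {y p : ℝ} (hy : 0 ≤ y) (hp0 : 0 ≤ p) (hp1 : p ≤ 1) : y ^ p ≤ 1 + y := by
  rcases le_total y 1 with h | h
  · exact (Real.rpow_le_one hy h hp0).trans (by linarith)
  · calc y ^ p ≤ y ^ (1 : ℝ) := Real.rpow_le_rpow_of_exponent_le h hp1
      _ = y := Real.rpow_one y
      _ ≤ 1 + y := by linarith

/-- Codiscretely within an open set, two codiscretely equal functions agree near a point. -/
lemma eventually_nhds_of_codiscreteWithin {U : Set ℂ} (hU : IsOpen U) {P : ℂ → Prop}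
    (h : ∀ᶠ z in codiscreteWithin U, P z) : ∀ᶠ z in codiscreteWithin U, ∀ᶠ y in 𝓝 z, P y := by
  simp only [Filter.Eventually] at *
  rw [mem_codiscreteWithin_iff_forall_mem_nhdsNE] at *
  intro x hx
  have h1 := h x hx
  have h2 : {y | P y} ∈ 𝓝[≠] x := by
    have h3 : U ∈ 𝓝[≠] x := mem_nhdsWithin_of_mem_nhds (hU.mem_nhds hx)
    filter_upwards [h1, h3] with y hy hyU
    rcases hy with hy | hy
    · exact hy
    · exact absurd hyU hy
  have h4 := eventually_eventually_nhdsWithin.2 h2
  filter_upwards [h4, self_mem_nhdsWithin] with y hy hyx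
  left
  change ∀ᶠ y in 𝓝 y, P y
  rwa [(isOpen_compl_singleton).nhdsWithin_eq hyx] at hy

lemma logDeriv_congr_codiscreteWithin {U : Set ℂ} (hU : IsOpen U) {F G : ℂ → ℂ}
    (h : F =ᶠ[codiscreteWithin U] G) : logDeriv F =ᶠ[codiscreteWithin U] logDeriv G := by
  filter_upwards [eventually_nhds_of_codiscreteWithin hU h] with z hz
  exact EventuallyEq.eq_of_nhds (EventuallyEq.div (EventuallyEq.deriv hz) hz)

lemma logDeriv_canonicalFactor {R : ℝ} {u z : ℂ} (hu : u ∈ ball (0 : ℂ) R)
    (hz : z ∈ closedBall (0 : ℂ) R) (hzu : z ≠ u) :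
    logDeriv (canonicalFactor R u) z = -(conj u) / (R ^ 2 - conj u * z) - 1 / (z - u) := by
  have hR : (R : ℂ) ≠ 0 := by exact_mod_cast (pos_of_mem_ball hu).ne'
  have h0 := canonicalFactor_ne_zero hu hz hzu
  have hz' : z - u ≠ 0 := sub_ne_zero.2 hzu
  have hnum : (R : ℂ) ^ 2 - conj u * z ≠ 0 := by
    intro h
    rw [canonicalFactor_apply, h, zero_div] at h0
    exact h0 rfl
  have h1 : HasDerivAt (fun z : ℂ => (R : ℂ) ^ 2 - conj u * z) (-(conj u)) z := by
    simpa using ((hasDerivAt_id z).const_mul (conj u)).const_sub ((R : ℂ) ^ 2)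
  have h2 : HasDerivAt (fun z : ℂ => (R : ℂ) * (z - u)) R z := by
    simpa using ((hasDerivAt_id z).sub_const u).const_mul (R : ℂ)
  have h3 : deriv (canonicalFactor R u) z = _ := (h1.div h2 (mul_ne_zero hR hz')).deriv
  rw [logDeriv_apply, h3, canonicalFactor_apply]
  field_simp

lemma norm_logDeriv_canonicalFactor_rpow_le {R p : ℝ} {u z : ℂ} (hp0 : 0 < p) (hp1 : p ≤ 1)
    (hu : u ∈ ball (0 : ℂ) R) (hz : z ∈ closedBall (0 : ℂ) R) (hzu : z ≠ u) :
    ‖logDeriv (canonicalFactor R u) z‖ ^ p ≤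
      ‖z - R ^ 2 / conj u‖ ^ (-p) + ‖z - u‖ ^ (-p) := by
  rw [logDeriv_canonicalFactor hu hz hzu]
  have h1 : ‖-(conj u) / ((R : ℂ) ^ 2 - conj u * z)‖ ^ p ≤ ‖z - R ^ 2 / conj u‖ ^ (-p) := by
    rcases eq_or_ne u 0 with rfl | hu0
    · simp only [map_zero, neg_zero, zero_div, norm_zero]
      rw [Real.zero_rpow hp0.ne']
      positivity
    · have hc : conj u ≠ 0 := by
        intro h
        exact hu0 (by simpa using h)
      have h2 : -(conj u) / ((R : ℂ) ^ 2 - conj u * z) = (z - R ^ 2 / conj u)⁻¹ := by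
        have h3 : (R : ℂ) ^ 2 - conj u * z = -(conj u) * (z - R ^ 2 / conj u) := by
          field_simp
          ring
        rw [h3, div_mul_eq_div_div, div_self (neg_ne_zero.2 hc), one_div]
      rw [h2, norm_inv, Real.inv_rpow (norm_nonneg _), Real.rpow_neg (norm_nonneg _)]
  have h2 : ‖1 / (z - u)‖ ^ p ≤ ‖z - u‖ ^ (-p) := by
    rw [one_div, norm_inv, Real.inv_rpow (norm_nonneg _), Real.rpow_neg (norm_nonneg _)]
  calc ‖-(conj u) / ((R : ℂ) ^ 2 - conj u * z) - 1 / (z - u)‖ ^ p
      ≤ (‖-(conj u) / ((R : ℂ) ^ 2 - conj u * z)‖ + ‖1 / (z - u)‖) ^ p := by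
        gcongr
        exact norm_sub_le _ _
    _ ≤ _ := rpow_add_le' (norm_nonneg _) (norm_nonneg _) hp0.le hp1
    _ ≤ _ := add_le_add h1 h2

/-- The dominating function. -/
theorem exists_dom {F : ℂ → ℂ} {R r p : ℝ} (hp0 : 0 < p) (hp1 : p < 1) (hr : 1 / 2 ≤ r)
    (hrR : r < R) (hF : MeromorphicOn F (closedBall 0 R))
    (hF0 : ∀ z ∈ closedBall (0 : ℂ) R, meromorphicOrderAt F z ≠ ⊤)
    (hS : ∀ z ∈ sphere (0 : ℂ) R, meromorphicOrderAt F z = 0) :
    ∃ B : ℂ → ℝ, CircleIntegrable B 0 r ∧ (∀ z, 0 ≤ B z) ∧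
      (∀ᶠ z in codiscreteWithin (sphere (0 : ℂ) |r|), ‖logDeriv F z‖ ^ p ≤ B z) ∧
      circleAverage B 0 r ≤ 1 + 2 * R / (R ^ 2 - r ^ 2) *
          circleAverage (fun z => |Real.log ‖F z‖|) 0 R
        + 2 * Ck p * ∑ᶠ u, |(divisor F (ball 0 R) u : ℝ)| := by
  have hr0 : 0 < r := by linarith
  have hR : 0 < R := hr0.trans hrR
  obtain ⟨g, D⟩ := hF.exists_ecanonicalDecomp fun u => hF0 u u.2
  have hfin : (divisor F (ball 0 R)).support.Finite := hF.divisor_ball_support_finite
  set s : Finset ℂ := hfin.toFinset with hs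
  set n : ℂ → ℤ := fun u => divisor F (ball 0 R) u with hn
  have hsupp : ∀ u ∈ s, u ∈ ball (0 : ℂ) R := by
    intro u hu
    rw [hs, Finite.mem_toFinset] at hu
    exact (divisor F (ball 0 R)).supportWithinDomain hu
  have hsph : ∀ v, divisor F (sphere 0 R) v = 0 := by
    intro v
    by_cases hv : v ∈ sphere (0 : ℂ) R
    · rw [divisor_apply (hF.mono_set sphere_subset_closedBall) hv, hS v hv]
      rfl
    · exact Function.locallyFinsuppWithin.apply_eq_zero_of_notMem _ hv
  -- the product form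
  set P : ℂ → ℂ := ∏ u ∈ s, canonicalFactor R u ^ (-n u) with hP
  have hFP : F =ᶠ[codiscreteWithin (closedBall 0 R)] P * g := by
    have h1 : (∏ᶠ u, (canonicalFactor R u) ^ (-divisor F (ball 0 R) u)) = P := by
      rw [hP]
      refine finprod_eq_prod_of_mulSupport_subset _ ?_
      intro u hu
      rw [hs, Finite.coe_toFinset]
      by_contra h
      apply hu
      have h2 : divisor F (ball 0 R) u = 0 := by simpa using h
      simp [h2]
    have h2 : (∏ᶠ v : ℂ, ((· - v) : ℂ → ℂ) ^ (divisor F (sphere 0 R)) v) = 1 := by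
      have : ∀ v : ℂ, ((· - v) : ℂ → ℂ) ^ (divisor F (sphere 0 R)) v = 1 := by
        intro v
        rw [hsph v, zpow_zero]
      simp only [this]
      exact finprod_one
    have h3 := D.eventuallyEq
    rw [h1, h2, mul_one] at h3
    exact h3
  have hcf : ∀ u ∈ s, MeromorphicOn (canonicalFactor R u ^ (-n u)) (ball 0 R) := fun u _ =>
    MeromorphicOn.zpow (fun z _ => meromorphic_canonicalFactor R u z) _
  have hcf' : ∀ u ∈ s, ∀ z ∈ ball (0 : ℂ) R,
      meromorphicOrderAt (canonicalFactor R u ^ (-n u)) z ≠ ⊤ := by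
    intro u _ z _
    rw [meromorphicOrderAt_zpow (meromorphic_canonicalFactor R u z)]
    lift meromorphicOrderAt (canonicalFactor R u) z to ℤ using
      (meromorphicOrderAt_canonicalFactor_ne_top u hR) with ℓ
    exact WithTop.coe_ne_top (a := -n u * ℓ)
  have hgM : MeromorphicOn g (ball 0 R) := fun z hz =>
    (D.analyticOnNhd z (ball_subset_closedBall hz)).meromorphicAt
  have hg' : ∀ z ∈ ball (0 : ℂ) R, meromorphicOrderAt g z ≠ ⊤ := by
    intro z hz
    have h1 := (D.analyticOnNhd z (ball_subset_closedBall hz)).meromorphicNFAt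
    rw [h1.meromorphicOrderAt_eq_zero_iff.2 (D.ne_zero z (ball_subset_closedBall hz))]
    simp
  have hlog : ∀ᶠ z in codiscreteWithin (ball (0 : ℂ) R), logDeriv F z =
      (∑ u ∈ s, ((-n u : ℤ) : ℂ) * logDeriv (canonicalFactor R u) z) + logDeriv g z := by
    have h1 : F =ᶠ[codiscreteWithin (ball 0 R)] P * g :=
      hFP.filter_mono (codiscreteWithin_mono ball_subset_closedBall)
    have hPM : MeromorphicOn P (ball 0 R) := by
      rw [hP]
      exact MeromorphicOn.prod fun u hu => hcf u hu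
    have hPt : ∀ z ∈ ball (0 : ℂ) R, meromorphicOrderAt P z ≠ ⊤ := by
      intro z hz
      rw [hP, meromorphicOrderAt_prod fun u hu => hcf u hu z hz]
      simpa using fun u hu => hcf' u hu z hz
    have h2 := logDeriv_congr_codiscreteWithin isOpen_ball h1
    have h3 := MeromorphicOn.logDeriv_mul_eventuallyEq hPM hgM hPt hg'
    have h4 := MeromorphicOn.logDeriv_prod_eventuallyEq hcf hcf'
    have h5 : ∀ᶠ z in codiscreteWithin (ball (0 : ℂ) R), ∀ u ∈ s, z ≠ u := by
      refine (eventually_all_finset s).2 fun u hu => ?_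
      have := (Set.finite_singleton u).compl_mem_codiscrete
      filter_upwards [codiscreteWithin_mono (subset_univ _) this] with z hz
      exact hz
    filter_upwards [h2, h3, h4, h5, self_mem_codiscreteWithin (ball (0 : ℂ) R)]
      with z hz2 hz3 hz4 hz5 hzb
    rw [hz2, hz3, Pi.add_apply, hP, hz4, Finset.sum_apply]
    congr 1
    refine Finset.sum_congr rfl fun u hu => ?_
    have h6 : DifferentiableAt ℂ (canonicalFactor R u) z :=
      (analyticOnNhd_canonicalFactor R u z (hz5 u hu)).differentiableAt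
    exact logDeriv_fun_zpow h6 (-n u)
  -- the dominating function
  set B : ℂ → ℝ := fun z => 1 + ‖deriv g z / g z‖ +
    ∑ u ∈ s, |(n u : ℝ)| * (‖z - R ^ 2 / conj u‖ ^ (-p) + ‖z - u‖ ^ (-p)) with hB
  have hgc : ContinuousOn (fun z => ‖deriv g z / g z‖) (sphere 0 r) := by
    intro z hz
    have hz' : z ∈ closedBall (0 : ℂ) R := by
      rw [mem_closedBall_zero_iff, mem_sphere_zero_iff_norm.1 hz]
      exact hrR.le
    have h1 := (D.analyticOnNhd z hz').continuousAt
    have h2 := (D.analyticOnNhd z hz').deriv.continuousAt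
    exact ((h2.div h1 (D.ne_zero z hz')).norm).continuousWithinAt
  have hgi : CircleIntegrable (fun z => ‖deriv g z / g z‖) 0 r :=
    hgc.circleIntegrable hr0.le
  have hki : ∀ a : ℂ, CircleIntegrable (fun z => ‖z - a‖ ^ (-p)) 0 r := fun a =>
    circleIntegrable_norm_sub_rpow hp0 hp1 hr a
  have hti : ∀ u ∈ s, CircleIntegrable
      (fun z => |(n u : ℝ)| * (‖z - R ^ 2 / conj u‖ ^ (-p) + ‖z - u‖ ^ (-p))) 0 r := by
    intro u _
    exact ((hki _).add (hki _)).const_mul _
  have hsi : CircleIntegrable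
      (fun z => ∑ u ∈ s, |(n u : ℝ)| * (‖z - R ^ 2 / conj u‖ ^ (-p) + ‖z - u‖ ^ (-p))) 0 r := by
    exact CircleIntegrable.fun_sum _ hti
  have hi1 : CircleIntegrable (fun z => 1 + ‖deriv g z / g z‖) 0 r :=
    (circleIntegrable_const 1 0 r).add hgi
  refine ⟨B, hi1.add hsi, ?_, ?_, ?_⟩
  · intro z
    positivity
  · have hsub : sphere (0 : ℂ) |r| ⊆ ball 0 R := by
      intro z hz
      rw [mem_sphere_zero_iff_norm, abs_of_pos hr0] at hz
      rw [mem_ball_zero_iff, hz]
      exact hrR
    have h5 : ∀ᶠ z in codiscreteWithin (ball (0 : ℂ) R), ∀ u ∈ s, z ≠ u := by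
      refine (eventually_all_finset s).2 fun u hu => ?_
      have := (Set.finite_singleton u).compl_mem_codiscrete
      filter_upwards [codiscreteWithin_mono (subset_univ _) this] with z hz
      exact hz
    filter_upwards [codiscreteWithin_mono hsub hlog, codiscreteWithin_mono hsub h5,
      self_mem_codiscreteWithin (sphere (0 : ℂ) |r|)] with z hz hzu hzs
    have hzR : z ∈ closedBall (0 : ℂ) R := ball_subset_closedBall (hsub hzs)
    rw [hz]
    calc ‖(∑ u ∈ s, ((-n u : ℤ) : ℂ) * logDeriv (canonicalFactor R u) z) + logDeriv g z‖ ^ p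
        ≤ ((∑ u ∈ s, |(n u : ℝ)| * ‖logDeriv (canonicalFactor R u) z‖) + ‖logDeriv g z‖) ^ p := by
          gcongr
          refine (norm_add_le _ _).trans ?_
          gcongr
          refine (norm_sum_le _ _).trans (le_of_eq ?_)
          refine Finset.sum_congr rfl fun u _ => ?_
          rw [norm_mul, Complex.norm_intCast, Int.cast_neg, abs_neg]
      _ ≤ (∑ u ∈ s, |(n u : ℝ)| * ‖logDeriv (canonicalFactor R u) z‖) ^ p
            + ‖logDeriv g z‖ ^ p :=
          rpow_add_le' (by positivity) (by positivity) hp0.le hp1.le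
      _ ≤ (∑ u ∈ s, |(n u : ℝ)| * (‖z - R ^ 2 / conj u‖ ^ (-p) + ‖z - u‖ ^ (-p)))
            + (1 + ‖logDeriv g z‖) := by
          refine add_le_add ?_ (rpow_le_one_add (norm_nonneg _) hp0.le hp1.le)
          refine (rpow_sum_le' s _ (fun u => by positivity) hp0 hp1.le).trans ?_
          refine Finset.sum_le_sum fun u hu => ?_
          rw [Real.mul_rpow (abs_nonneg _) (norm_nonneg _)]
          refine mul_le_mul ?_ (norm_logDeriv_canonicalFactor_rpow_le hp0 hp1.le (hsupp u hu)
            hzR (hzu u hu)) (by positivity) (by positivity)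
          rcases eq_or_ne (n u) 0 with h0 | h0
          · rw [h0]
            simp [Real.zero_rpow hp0.ne']
          · have h1 : (1 : ℝ) ≤ |(n u : ℝ)| := by
              rw [← Int.cast_abs]
              exact_mod_cast Int.one_le_abs h0
            calc |(n u : ℝ)| ^ p ≤ |(n u : ℝ)| ^ (1 : ℝ) :=
                  Real.rpow_le_rpow_of_exponent_le h1 hp1.le
              _ = _ := Real.rpow_one _
      _ = B z := by
          rw [hB]
          simp only [logDeriv_apply]
          ring
  · have h1 : circleAverage B 0 r = 1 + circleAverage (fun z => ‖deriv g z / g z‖) 0 r +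
        ∑ u ∈ s, |(n u : ℝ)| * (circleAverage (fun z => ‖z - R ^ 2 / conj u‖ ^ (-p)) 0 r +
          circleAverage (fun z => ‖z - u‖ ^ (-p)) 0 r) := by
      rw [hB, circleAverage_fun_add hi1 hsi, circleAverage_fun_add (circleIntegrable_const 1 0 r) hgi,
        circleAverage_const, circleAverage_fun_sum hti]
      congr 1
      refine Finset.sum_congr rfl fun u hu => ?_
      rw [← circleAverage_fun_add (hki _) (hki _), ← smul_eq_mul, ← circleAverage_fun_smul]
      rfl
    have h2 : circleAverage (fun ζ => |Real.log ‖g ζ‖|) 0 R =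
        circleAverage (fun z => |Real.log ‖F z‖|) 0 R := by
      refine circleAverage_congr_codiscreteWithin ?_ hR.ne'
      have hsub : sphere (0 : ℂ) |R| ⊆ closedBall 0 R := by
        rw [abs_of_pos hR]
        exact sphere_subset_closedBall
      filter_upwards [codiscreteWithin_mono hsub hFP,
        self_mem_codiscreteWithin (sphere (0 : ℂ) |R|)] with z hz hzs
      rw [abs_of_pos hR] at hzs
      rw [hz, Pi.mul_apply, norm_mul, hP, Finset.prod_apply, norm_prod]
      have : ∀ u ∈ s, ‖(canonicalFactor R u ^ (-n u)) z‖ = 1 := by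
        intro u hu
        rw [Pi.pow_apply, norm_zpow, norm_canonicalFactor_eval_circle_eq_one (hsupp u hu) hzs,
          one_zpow]
      rw [Finset.prod_congr rfl this, Finset.prod_const_one, one_mul]
    have h3 := circleAverage_norm_logDeriv_le hr0 hrR D.analyticOnNhd D.ne_zero
    rw [h2] at h3
    have h4 : ∑ᶠ u, |(divisor F (ball 0 R) u : ℝ)| = ∑ u ∈ s, |(n u : ℝ)| := by
      refine finsum_eq_sum_of_support_subset _ ?_
      intro u hu
      rw [hs, Finite.coe_toFinset]
      by_contra h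
      apply hu
      have h2 : divisor F (ball 0 R) u = 0 := by simpa using h
      simp [h2]
    rw [h1, h4, Finset.mul_sum]
    refine add_le_add (add_le_add le_rfl h3) (Finset.sum_le_sum fun u _ => ?_)
    have h5 := circleAverage_norm_sub_rpow_le hp0 hp1 hr (R ^ 2 / conj u)
    have h6 := circleAverage_norm_sub_rpow_le hp0 hp1 hr u
    have h7 : (0 : ℝ) ≤ |(n u : ℝ)| := abs_nonneg _
    nlinarith

end Pool.Agent.Helper61.Nev
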