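import Pool.Agent.Helper61.Nev.Basics
import Pool.Agent.Helper61.Nev.Dom

/-!
# Growth lemmas: first main theorem, moment bound, logarithmic derivative
-/

set_option autoImplicit false

open MeasureTheory Real Set Metric Filter Topology MeromorphicOn

namespace Pool.Agent.Helper61.Nev

/-- the logarithm `log 1/(1-r)` -/
noncomputable def Lr (r : ℝ) : ℝ := -log (1 - r)

lemma Lr_nonneg {r : ℝ} (h0 : 0 ≤ r) (h1 : r < 1) : 0 ≤ Lr r := by
  unfold Lr
  have := log_nonpos (by linarith : (0 : ℝ) ≤ 1 - r) (by linarith)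
  linarith

lemma mono_sphere {f : ℂ → ℂ} (hf : MeromorphicOn f (ball 0 1)) {r : ℝ} (h0 : 0 < r) (h1 : r < 1) :
    MeromorphicOn f (sphere 0 |r|) := fun z hz => hf z (by
  rw [mem_sphere_zero_iff_norm, abs_of_pos h0] at hz
  rw [mem_ball_zero_iff, hz]
  exact h1)

lemma sphere_subset_ball {r : ℝ} (h0 : 0 < r) (h1 : r < 1) : sphere (0 : ℂ) |r| ⊆ ball 0 1 := by
  intro z hz
  rw [mem_sphere_zero_iff_norm, abs_of_pos h0] at hz
  rw [mem_ball_zero_iff, hz]
  exact h1

lemma ci_posLog {f : ℂ → ℂ} (hf : MeromorphicOn f (ball 0 1)) {r : ℝ} (h0 : 0 < r) (h1 : r < 1) :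
    CircleIntegrable (fun z => log⁺ ‖f z‖) 0 r :=
  (mono_sphere hf h0 h1).circleIntegrable_posLog_norm

lemma ci_log {f : ℂ → ℂ} (hf : MeromorphicOn f (ball 0 1)) {r : ℝ} (h0 : 0 < r) (h1 : r < 1) :
    CircleIntegrable (fun z => log ‖f z‖) 0 r :=
  (mono_sphere hf h0 h1).circleIntegrable_log_norm

lemma prox_sub_prox_inv {f : ℂ → ℂ} (hf : MeromorphicOn f (ball 0 1)) {r : ℝ} (h0 : 0 < r)
    (h1 : r < 1) : prox f r - prox f⁻¹ r = circleAverage (fun z => log ‖f z‖) 0 r := by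
  unfold prox
  rw [← circleAverage_fun_sub (ci_posLog hf h0 h1) (ci_posLog hf.inv h0 h1)]
  congr 1
  funext z
  rw [Pi.inv_apply, norm_inv, posLog_sub_posLog_inv]

lemma prox_add_prox_inv {f : ℂ → ℂ} (hf : MeromorphicOn f (ball 0 1)) {r : ℝ} (h0 : 0 < r)
    (h1 : r < 1) : prox f r + prox f⁻¹ r = circleAverage (fun z => |log ‖f z‖|) 0 r := by
  unfold prox
  rw [← circleAverage_fun_add (ci_posLog hf h0 h1) (ci_posLog hf.inv h0 h1)]
  congr 1
  funext z
  rw [Pi.inv_apply, norm_inv, ← half_mul_log_add_log_abs, ← half_mul_log_add_log_abs, log_inv,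
    abs_neg]
  ring

lemma abs_log_le {r : ℝ} (h0 : 1 / 2 ≤ r) (h1 : r < 1) : |log r| ≤ log 2 := by
  rw [abs_of_nonpos (log_nonpos (by linarith) h1.le), ← log_inv]
  refine log_le_log (by positivity) ?_
  rw [inv_le_comm₀ (by linarith) (by norm_num)]
  linarith

/-- First main theorem (for the values `0` and `∞`). -/
lemma first_main {f : ℂ → ℂ} (hf : MeromorphicOn f (ball 0 1)) :
    ∃ C : ℝ, 0 ≤ C ∧ ∀ r : ℝ, 1 / 2 ≤ r → r < 1 → |Ts f r - Ts f⁻¹ r| ≤ C := by
  refine ⟨|((pm f⁻¹ 0 : ℝ) - pm f 0)| * log 2 + |log ‖meromorphicTrailingCoeffAt f 0‖|,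
    by positivity, fun r hr0 hr1 => ?_⟩
  have h0 : 0 < r := by linarith
  have h2 := jensen hf h0 hr1
  have h3 := prox_sub_prox_inv hf h0 hr1
  have h4 : Ts f r - Ts f⁻¹ r =
      ((pm f⁻¹ 0 : ℝ) - pm f 0) * log r + log ‖meromorphicTrailingCoeffAt f 0‖ := by
    unfold Ts
    linarith
  rw [h4]
  refine (abs_add_le _ _).trans ?_
  rw [abs_mul]
  have := abs_log_le hr0 hr1
  gcongr

lemma circleAverage_log_ge {f : ℂ → ℂ} (hf : MeromorphicOn f (ball 0 1)) :
    ∃ C : ℝ, ∀ r : ℝ, 1 / 2 ≤ r → r < 1 →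
      -Ns f r - C ≤ circleAverage (fun z => log ‖f z‖) 0 r := by
  refine ⟨|((pm f⁻¹ 0 : ℝ) - pm f 0)| * log 2 + |log ‖meromorphicTrailingCoeffAt f 0‖|,
    fun r hr0 hr1 => ?_⟩
  have h0 : 0 < r := by linarith
  rw [jensen hf h0 hr1]
  have h1 := Ns_nonneg f⁻¹ r
  have h2 : -(|((pm f⁻¹ 0 : ℝ) - pm f 0)| * log 2) ≤ ((pm f⁻¹ 0 : ℝ) - pm f 0) * log r := by
    refine neg_le_of_abs_le ?_
    rw [abs_mul]
    have := abs_log_le hr0 hr1
    gcongr
  have h3 := neg_abs_le (log ‖meromorphicTrailingCoeffAt f 0‖)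
  linarith

lemma charT_eq {f : ℂ → ℂ} (hf : MeromorphicOn f (ball 0 1)) {r : ℝ} (h0 : 0 < r) (h1 : r < 1) :
    charT f r = Ts f r + pm f 0 * log r := by
  unfold charT Ts
  rw [countN_eq hf h0 h1]
  ring

lemma charT_le {f : ℂ → ℂ} (hf : MeromorphicOn f (ball 0 1)) {r : ℝ} (h0 : 0 < r) (h1 : r < 1) :
    charT f r ≤ Ts f r := by
  rw [charT_eq hf h0 h1]
  have h2 : (0 : ℝ) ≤ pm f 0 := by exact_mod_cast pm_nonneg f 0
  have h3 := log_nonpos h0.le h1.le
  nlinarith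

lemma Ts_le_charT {f : ℂ → ℂ} (hf : MeromorphicOn f (ball 0 1)) {r : ℝ} (h0 : 1 / 2 ≤ r)
    (h1 : r < 1) : Ts f r ≤ charT f r + pm f 0 * log 2 := by
  rw [charT_eq hf (by linarith) h1]
  have h2 : (0 : ℝ) ≤ pm f 0 := by exact_mod_cast pm_nonneg f 0
  have h3 := abs_log_le h0 h1
  have h4 := neg_abs_le (log r)
  nlinarith

/-- the number of zeros and poles in a disc -/
lemma number_le {F : ℂ → ℂ} (hF : MeromorphicOn F (ball 0 1)) {R ρ : ℝ} (hR : 0 < R) (hRρ : R < ρ)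
    (hρ : ρ < 1) :
    (∑ᶠ u, |(divisor F (ball 0 R) u : ℝ)|) * log (ρ / R) ≤
      Ns F ρ + Ns F⁻¹ ρ + ((pm F 0 : ℝ) + pm F⁻¹ 0) * log (ρ / R) := by
  have hρ0 : 0 < ρ := hR.trans hRρ
  have hlog : 0 ≤ log (ρ / R) := log_nonneg (by rw [one_le_div hR]; exact hRρ.le)
  have hFR : MeromorphicOn F (ball 0 R) := fun z hz => hF z (ball_subset_ball (by linarith) hz)
  have hFR' : MeromorphicOn F (closedBall 0 R) := fun z hz =>
    hF z (closedBall_subset_ball (by linarith) hz)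
  have hfin1 := Ns_support_finite hF hρ0 hρ
  have hfin2 := Ns_support_finite hF.inv hρ0 hρ
  unfold Ns
  have hfin3 : (Function.support fun u : ℂ =>
      if u = 0 then ((pm F 0 : ℝ) + pm F⁻¹ 0) * log (ρ / R) else 0).Finite := by
    refine (Set.finite_singleton (0 : ℂ)).subset fun u hu => ?_
    by_contra h
    apply hu
    simp only [mem_singleton_iff] at h
    simp [h]
  have hfin4 : (Function.support fun u : ℂ => |(divisor F (ball 0 R) u : ℝ)|).Finite := by
    refine hFR'.divisor_ball_support_finite.subset fun u hu => ?_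
    intro h
    apply hu
    change divisor F (ball 0 R) u = 0 at h
    simp [h]
  have h1 : ∑ᶠ u : ℂ, (if u = 0 then ((pm F 0 : ℝ) + pm F⁻¹ 0) * log (ρ / R) else 0) =
      ((pm F 0 : ℝ) + pm F⁻¹ 0) * log (ρ / R) := by
    rw [finsum_eq_single _ (0 : ℂ)]
    · simp
    · intro u hu
      simp [hu]
  rw [← h1, ← finsum_add_distrib hfin1 hfin2, ← finsum_add_distrib (hfin1.union hfin2 |>.subset
    (Function.support_add _ _)) hfin3, finsum_mul]
  refine finsum_le_finsum' (hfin4.subset (Function.support_mul_subset_left _ _))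
    (((hfin1.union hfin2).union hfin3).subset ?_) ?_
  · refine (Function.support_add _ _).trans (union_subset_union_left _ (Function.support_add _ _))
  intro u
  simp only
  have hp1 : (0 : ℝ) ≤ pm F u := by exact_mod_cast pm_nonneg F u
  have hp2 : (0 : ℝ) ≤ pm F⁻¹ u := by exact_mod_cast pm_nonneg F⁻¹ u
  have hpl : (0 : ℝ) ≤ log⁺ (ρ * ‖u‖⁻¹) := posLog_nonneg
  by_cases hu : u ∈ ball (0 : ℂ) R
  · have h2 : |(divisor F (ball 0 R) u : ℝ)| ≤ pm F u + pm F⁻¹ u := by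
      rw [divisor_apply hFR hu, ← pm_sub_pm_inv, Int.cast_sub]
      refine (abs_sub _ _).trans ?_
      rw [abs_of_nonneg hp1, abs_of_nonneg hp2]
      linarith
    rcases eq_or_ne u 0 with rfl | hu0
    · simp only [if_true]
      have h3 := mul_le_mul_of_nonneg_right h2 hlog
      nlinarith
    · simp only [hu0, if_false]
      have hu1 : 0 < ‖u‖ := norm_pos_iff.2 hu0
      have h3 : log (ρ / R) ≤ log⁺ (ρ * ‖u‖⁻¹) := by
        rw [posLog_mul_inv_eq_log (by
          rw [mem_closedBall_zero_iff]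
          rw [mem_ball_zero_iff] at hu
          linarith)]
        refine log_le_log (by positivity) ?_
        rw [← div_eq_mul_inv]
        rw [mem_ball_zero_iff] at hu
        gcongr
      calc |(divisor F (ball 0 R) u : ℝ)| * log (ρ / R)
          ≤ (pm F u + pm F⁻¹ u) * log⁺ (ρ * ‖u‖⁻¹) := by gcongr
        _ = _ := by ring
  · have h2 : divisor F (ball 0 R) u = 0 :=
      Function.locallyFinsuppWithin.apply_eq_zero_of_notMem _ hu
    rw [h2]
    simp only [Int.cast_zero, abs_zero, zero_mul]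
    have h3 : (0 : ℝ) ≤ if u = 0 then ((pm F 0 : ℝ) + pm F⁻¹ 0) * log (ρ / R) else 0 := by
      split_ifs with h4
      · rw [h4] at hp1 hp2
        positivity
      · exact le_rfl
    positivity

end Pool.Agent.Helper61.Nev
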