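import Pool.Agent.Helper61.Nev.Defs

/-!
# Basic facts on the Nevanlinna functions in the disc
-/

set_option autoImplicit false

open MeasureTheory Real Set Metric Filter Topology MeromorphicOn

namespace Pool.Agent.Helper61.Nev

/-- The multiplicity of `u` as a pole. -/
noncomputable def pm (f : ℂ → ℂ) (u : ℂ) : ℤ := ((meromorphicOrderAt f u).untop₀)⁻

lemma pm_nonneg (f : ℂ → ℂ) (u : ℂ) : 0 ≤ pm f u := negPart_nonneg _

lemma pm_le_iff {f : ℂ → ℂ} {u : ℂ} {m : ℤ} (hm : 0 ≤ m) :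
    pm f u ≤ m ↔ ((-m : ℤ) : WithTop ℤ) ≤ meromorphicOrderAt f u := by
  unfold pm
  cases h : meromorphicOrderAt f u with
  | top => simp [hm]
  | coe n =>
    rw [WithTop.untop₀_coe, WithTop.coe_le_coe, negPart_def, sup_le_iff]
    constructor
    · intro h1
      linarith [h1.1]
    · intro h1
      exact ⟨by linarith, hm⟩

lemma neg_pm_le (f : ℂ → ℂ) (u : ℂ) : ((-pm f u : ℤ) : WithTop ℤ) ≤ meromorphicOrderAt f u :=
  (pm_le_iff (pm_nonneg f u)).1 le_rfl

lemma pm_eq_zero {f : ℂ → ℂ} {u : ℂ} (h : 0 ≤ meromorphicOrderAt f u) : pm f u = 0 :=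
  le_antisymm ((pm_le_iff le_rfl).2 (by simpa using h)) (pm_nonneg f u)

lemma pm_congr {f g : ℂ → ℂ} {u : ℂ} (h : f =ᶠ[𝓝[≠] u] g) : pm f u = pm g u := by
  unfold pm
  rw [meromorphicOrderAt_congr h]

lemma pm_add {f g : ℂ → ℂ} {u : ℂ} (hf : MeromorphicAt f u) (hg : MeromorphicAt g u) :
    pm (f + g) u ≤ max (pm f u) (pm g u) := by
  rw [pm_le_iff (le_max_of_le_left (pm_nonneg f u))]
  refine le_trans ?_ (meromorphicOrderAt_add hf hg)
  refine le_min (le_trans ?_ (neg_pm_le f u)) (le_trans ?_ (neg_pm_le g u))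
  · exact WithTop.coe_le_coe.2 (neg_le_neg (le_max_left _ _))
  · exact WithTop.coe_le_coe.2 (neg_le_neg (le_max_right _ _))

lemma pm_mul {f g : ℂ → ℂ} {u : ℂ} (hf : MeromorphicAt f u) (hg : MeromorphicAt g u) :
    pm (f * g) u ≤ pm f u + pm g u := by
  rw [pm_le_iff (add_nonneg (pm_nonneg f u) (pm_nonneg g u)), meromorphicOrderAt_mul hf hg]
  have h1 : ((-(pm f u + pm g u) : ℤ) : WithTop ℤ) =
      ((-pm f u : ℤ) : WithTop ℤ) + ((-pm g u : ℤ) : WithTop ℤ) := by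
    rw [← WithTop.coe_add]
    congr 1
    ring
  rw [h1]
  exact add_le_add (neg_pm_le f u) (neg_pm_le g u)

lemma order_deriv_ge {f : ℂ → ℂ} {u : ℂ} (hf : MeromorphicAt f u)
    (h : 0 ≤ meromorphicOrderAt f u) : 0 ≤ meromorphicOrderAt (deriv f) u := by
  obtain ⟨g, hg, hfg⟩ : ∃ g : ℂ → ℂ, AnalyticAt ℂ g u ∧ f =ᶠ[𝓝[≠] u] g := by
    obtain ⟨g, h1, h2⟩ := hf.meromorphicOrderAt_nonneg_iff.1 h
    exact ⟨g, h1, h2⟩
  rw [meromorphicOrderAt_congr hfg.nhdsNE_deriv]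
  exact hg.deriv.meromorphicOrderAt_nonneg

lemma pm_deriv {f : ℂ → ℂ} {u : ℂ} (hf : MeromorphicAt f u) : pm (deriv f) u ≤ 2 * pm f u := by
  by_cases h : 0 ≤ meromorphicOrderAt f u
  · rw [pm_eq_zero (order_deriv_ge hf h), pm_eq_zero h]
    simp
  · have htop : meromorphicOrderAt f u ≠ ⊤ := by
      intro h1
      rw [h1] at h
      exact h le_top
    obtain ⟨n, hn⟩ := WithTop.ne_top_iff_exists.1 htop
    have hn0 : n < 0 := by
      rw [← hn] at h
      by_contra h1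
      exact h (by exact_mod_cast not_lt.1 h1)
    have h1 := meromorphicOrderAt_deriv_eq_sub_one (f := f) (x := u) (n := n)
      (by exact_mod_cast hn0.ne) hn.symm
    have h2 : pm f u = -n := by
      unfold pm
      rw [← hn, WithTop.untop₀_coe, negPart_eq_neg.2 hn0.le]
    have h3 : pm (deriv f) u = -(n - 1) := by
      unfold pm
      rw [h1, WithTop.untop₀_coe, negPart_eq_neg.2 (by linarith)]
    rw [h2, h3]
    linarith

lemma pm_sub_pm_inv (f : ℂ → ℂ) (u : ℂ) :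
    pm f⁻¹ u - pm f u = (meromorphicOrderAt f u).untop₀ := by
  unfold pm
  rw [meromorphicOrderAt_inv, WithTop.untop₀_neg, negPart_neg]
  exact posPart_sub_negPart _

/-- The part of the counting function without the origin. -/
noncomputable def Ns (f : ℂ → ℂ) (r : ℝ) : ℝ := ∑ᶠ u : ℂ, (pm f u : ℝ) * log⁺ (r * ‖u‖⁻¹)

/-- `T` without the term of the origin. -/
noncomputable def Ts (f : ℂ → ℂ) (r : ℝ) : ℝ := prox f r + Ns f r

lemma prox_nonneg (f : ℂ → ℂ) (r : ℝ) : 0 ≤ prox f r :=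
  circleAverage_nonneg_of_nonneg fun _ _ => posLog_nonneg

lemma Ns_nonneg (f : ℂ → ℂ) (r : ℝ) : 0 ≤ Ns f r :=
  finsum_nonneg fun u => mul_nonneg (by exact_mod_cast pm_nonneg f u) posLog_nonneg

lemma Ts_nonneg (f : ℂ → ℂ) (r : ℝ) : 0 ≤ Ts f r := add_nonneg (prox_nonneg f r) (Ns_nonneg f r)

lemma posLog_mul_inv_eq_zero {r : ℝ} (hr0 : 0 < r) {u : ℂ} (hu : r ≤ ‖u‖) :
    log⁺ (r * ‖u‖⁻¹) = 0 := by
  have h1 : 0 < ‖u‖ := hr0.trans_le hu
  rw [posLog_eq_zero_iff, abs_of_nonneg (by positivity), ← div_eq_mul_inv, div_le_one h1]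
  exact hu

lemma posLog_mul_inv_eq_log {r : ℝ} {u : ℂ} (hu : u ∈ closedBall (0 : ℂ) r) :
    log⁺ (r * ‖u‖⁻¹) = log (r * ‖u‖⁻¹) := by
  rcases eq_or_ne u 0 with rfl | hu0
  · simp
  · have h1 : 0 < ‖u‖ := norm_pos_iff.2 hu0
    rw [mem_closedBall_zero_iff] at hu
    refine posLog_eq_log ?_
    rw [abs_of_nonneg (by have := h1.trans_le hu; positivity), ← div_eq_mul_inv, one_le_div h1]
    exact hu

lemma poles_finite {f : ℂ → ℂ} (hf : MeromorphicOn f (ball 0 1)) {r : ℝ} (hr : r < 1) :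
    {u : ℂ | u ∈ closedBall (0 : ℂ) r ∧ meromorphicOrderAt f u ≠ 0 ∧
      meromorphicOrderAt f u ≠ ⊤}.Finite := by
  have h1 : MeromorphicOn f (closedBall 0 r) := fun z hz =>
    hf z (closedBall_subset_ball hr hz)
  refine ((divisor f (closedBall 0 r)).finiteSupport (isCompact_closedBall 0 r)).subset ?_
  rintro u ⟨hu, h2, h3⟩
  change divisor f (closedBall 0 r) u ≠ 0
  rw [divisor_apply h1 hu]
  intro h4
  rcases WithTop.untop₀_eq_zero.1 h4 with h5 | h5
  · exact h2 h5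
  · exact h3 h5

lemma pm_ne_zero_imp {f : ℂ → ℂ} {u : ℂ} (h : pm f u ≠ 0) :
    meromorphicOrderAt f u ≠ 0 ∧ meromorphicOrderAt f u ≠ ⊤ := by
  constructor
  · intro h1
    exact h (pm_eq_zero h1.ge)
  · intro h1
    exact h (pm_eq_zero (by rw [h1]; exact le_top))

lemma Ns_support_finite {f : ℂ → ℂ} (hf : MeromorphicOn f (ball 0 1)) {r : ℝ} (hr0 : 0 < r)
    (hr : r < 1) : (Function.support fun u : ℂ => (pm f u : ℝ) * log⁺ (r * ‖u‖⁻¹)).Finite := by
  refine (poles_finite hf hr).subset ?_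
  intro u hu
  rw [Function.mem_support, mul_ne_zero_iff] at hu
  refine ⟨?_, pm_ne_zero_imp (by exact_mod_cast hu.1)⟩
  rw [mem_closedBall_zero_iff]
  by_contra h
  exact hu.2 (posLog_mul_inv_eq_zero hr0 (not_le.1 h).le)

/-- Comparison of counting functions. -/
lemma Ns_le_of {ι : Type*} (s : Finset ι) (c : ι → ℝ) (f : ι → ℂ → ℂ) (b : ℂ → ℝ) {h : ℂ → ℂ}
    (hf : ∀ i ∈ s, MeromorphicOn (f i) (ball 0 1)) (hh : MeromorphicOn h (ball 0 1))
    (hb : (Function.support b).Finite)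
    (hle : ∀ u ∈ ball (0 : ℂ) 1, (pm h u : ℝ) ≤ ∑ i ∈ s, c i * pm (f i) u + b u)
    {r : ℝ} (hr0 : 0 < r) (hr : r < 1) :
    Ns h r ≤ ∑ i ∈ s, c i * Ns (f i) r + ∑ᶠ u, b u * log⁺ (r * ‖u‖⁻¹) := by
  classical
  have hfin : ∀ i ∈ s, (Function.support fun u : ℂ => (pm (f i) u : ℝ) * log⁺ (r * ‖u‖⁻¹)).Finite :=
    fun i hi => Ns_support_finite (hf i hi) hr0 hr
  have hbf : (Function.support fun u : ℂ => b u * log⁺ (r * ‖u‖⁻¹)).Finite :=
    hb.subset (Function.support_mul_subset_left _ _)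
  obtain ⟨S, hS⟩ : ∃ S : Finset ℂ,
      (Function.support fun u : ℂ => (pm h u : ℝ) * log⁺ (r * ‖u‖⁻¹)) ⊆ S ∧
      (∀ i ∈ s, (Function.support fun u : ℂ => (pm (f i) u : ℝ) * log⁺ (r * ‖u‖⁻¹)) ⊆ S) ∧
      (Function.support fun u : ℂ => b u * log⁺ (r * ‖u‖⁻¹)) ⊆ S := by
    have h1 : (⋃ i ∈ s, (Function.support fun u : ℂ => (pm (f i) u : ℝ) * log⁺ (r * ‖u‖⁻¹))).Finite :=
      Set.Finite.biUnion s.finite_toSet fun i hi => hfin i hi
    refine ⟨(((Ns_support_finite hh hr0 hr).union h1).union hbf).toFinset, ?_, ?_, ?_⟩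
    · rw [Finite.coe_toFinset]
      exact subset_union_of_subset_left subset_union_left _
    · intro i hi
      rw [Finite.coe_toFinset]
      refine subset_union_of_subset_left (subset_union_of_subset_right ?_ _) _
      exact subset_biUnion_of_mem (u := fun i =>
        (Function.support fun u : ℂ => (pm (f i) u : ℝ) * log⁺ (r * ‖u‖⁻¹))) hi
    · rw [Finite.coe_toFinset]
      exact subset_union_right
  unfold Ns
  rw [finsum_eq_sum_of_support_subset _ hS.1, finsum_eq_sum_of_support_subset _ hS.2.2]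
  have h2 : ∑ i ∈ s, c i * ∑ᶠ u : ℂ, (pm (f i) u : ℝ) * log⁺ (r * ‖u‖⁻¹) =
      ∑ i ∈ s, c i * ∑ u ∈ S, (pm (f i) u : ℝ) * log⁺ (r * ‖u‖⁻¹) := by
    refine Finset.sum_congr rfl fun i hi => ?_
    rw [finsum_eq_sum_of_support_subset _ (hS.2.1 i hi)]
  rw [h2]
  simp only [Finset.mul_sum]
  rw [Finset.sum_comm, ← Finset.sum_add_distrib]
  refine Finset.sum_le_sum fun u _ => ?_
  by_cases hu : u ∈ ball (0 : ℂ) 1
  · have h3 := mul_le_mul_of_nonneg_right (hle u hu) (posLog_nonneg (x := r * ‖u‖⁻¹))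
    calc (pm h u : ℝ) * log⁺ (r * ‖u‖⁻¹)
        ≤ (∑ i ∈ s, c i * pm (f i) u + b u) * log⁺ (r * ‖u‖⁻¹) := h3
      _ = _ := by
        rw [add_mul, Finset.sum_mul]
        congr 1
        refine Finset.sum_congr rfl fun i _ => ?_
        ring
  · rw [mem_ball_zero_iff, not_lt] at hu
    have h4 : log⁺ (r * ‖u‖⁻¹) = 0 := posLog_mul_inv_eq_zero hr0 (hr.le.trans hu)
    simp [h4]

lemma finsum_posLog_le (b : ℂ → ℝ) (hb : (Function.support b).Finite) (hb0 : ∀ u, 0 ≤ b u) {r : ℝ}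
    (hr0 : 0 < r) (hr : r < 1) :
    ∑ᶠ u, b u * log⁺ (r * ‖u‖⁻¹) ≤ ∑ᶠ u, b u * log⁺ (‖u‖⁻¹) := by
  refine finsum_le_finsum' (hb.subset (Function.support_mul_subset_left _ _))
    (hb.subset (Function.support_mul_subset_left _ _)) fun u => ?_
  refine mul_le_mul_of_nonneg_left ?_ (hb0 u)
  refine posLog_le_posLog (by positivity) ?_
  exact mul_le_of_le_one_left (by positivity) hr.le

lemma countN_eq {f : ℂ → ℂ} (hf : MeromorphicOn f (ball 0 1)) {r : ℝ} (hr0 : 0 < r) (hr : r < 1) :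
    countN f r = Ns f r + pm f 0 * log r := by
  have h1 : MeromorphicOn f (closedBall 0 r) := fun z hz =>
    hf z (closedBall_subset_ball hr hz)
  unfold countN Ns
  congr 1
  · refine finsum_congr fun u => ?_
    by_cases hu : u ∈ closedBall (0 : ℂ) r
    · rw [divisor_apply h1 hu]
      change (pm f u : ℝ) * _ = _
      rw [posLog_mul_inv_eq_log hu]
    · have h2 : divisor f (closedBall 0 r) u = 0 :=
        Function.locallyFinsuppWithin.apply_eq_zero_of_notMem _ hu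
      rw [h2]
      rw [mem_closedBall_zero_iff, not_le] at hu
      rw [posLog_mul_inv_eq_zero hr0 hu.le]
      simp
  · rw [divisor_apply h1 (mem_closedBall_self hr0.le)]
    rfl

/-- Jensen's formula in the disc. -/
lemma jensen {f : ℂ → ℂ} (hf : MeromorphicOn f (ball 0 1)) {r : ℝ} (hr0 : 0 < r) (hr : r < 1) :
    circleAverage (fun z => log ‖f z‖) 0 r =
      Ns f⁻¹ r - Ns f r + (pm f⁻¹ 0 - pm f 0) * log r + log ‖meromorphicTrailingCoeffAt f 0‖ := by
  have h1 : MeromorphicOn f (closedBall 0 |r|) := fun z hz =>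
    hf z (closedBall_subset_ball (by rwa [abs_of_pos hr0]) hz)
  have h1' : MeromorphicOn f (closedBall 0 r) := by rwa [abs_of_pos hr0] at h1
  have h2 := MeromorphicOn.circleAverage_log_norm (c := 0) hr0.ne' h1
  rw [h2, abs_of_pos hr0]
  congr 1
  congr 1
  · unfold Ns
    rw [← finsum_sub_distrib (Ns_support_finite hf.inv hr0 hr) (Ns_support_finite hf hr0 hr)]
    refine finsum_congr fun u => ?_
    rw [← sub_mul, ← Int.cast_sub, pm_sub_pm_inv, zero_sub, norm_neg]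
    by_cases hu : u ∈ closedBall (0 : ℂ) r
    · rw [divisor_apply h1' hu]
      rw [posLog_mul_inv_eq_log hu]
    · have h2 : divisor f (closedBall 0 r) u = 0 :=
        Function.locallyFinsuppWithin.apply_eq_zero_of_notMem _ hu
      rw [h2]
      rw [mem_closedBall_zero_iff, not_le] at hu
      rw [posLog_mul_inv_eq_zero hr0 hu.le]
      simp
  · rw [divisor_apply h1' (mem_closedBall_self hr0.le), ← pm_sub_pm_inv, Int.cast_sub]

end Pool.Agent.Helper61.Nev
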