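import Mathlib

/-!
# Means of negative powers of the distance on circles
-/

set_option autoImplicit false

open MeasureTheory Real intervalIntegral Set

namespace Pool.Agent.Helper61.Nev

/-- The function `|sin|^(-p)` is integrable over a period. -/
lemma intervalIntegrable_abs_sin_rpow {p : ℝ} (hp0 : 0 < p) (hp1 : p < 1) (a b : ℝ) :
    IntervalIntegrable (fun θ : ℝ => |sin θ| ^ (-p)) volume a b := by
  have hper : Function.Periodic (fun θ : ℝ => |sin θ| ^ (-p)) π := by
    intro θ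
    simp only [sin_add_pi, abs_neg]
  have hmeas : Measurable (fun θ : ℝ => |sin θ| ^ (-p)) :=
    (measurable_sin.abs).pow_const _
  have hpos : IntervalIntegrable (fun θ : ℝ => |sin θ| ^ (-p)) volume 0 (π / 2) := by
    have h1 : IntervalIntegrable (fun x : ℝ => (2 / π) ^ (-p) * x ^ (-p)) volume 0 (π / 2) :=
      (intervalIntegral.intervalIntegrable_rpow' (by linarith)).const_mul _
    refine h1.mono_fun hmeas.aestronglyMeasurable ?_
    rw [uIoc_of_le (by positivity)]
    refine (ae_restrict_iff' measurableSet_Ioc).2 (Filter.Eventually.of_forall fun x hx => ?_)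
    have hx0 : 0 < x := hx.1
    have h2 : 2 / π * x ≤ |sin x| := by
      have := mul_abs_le_abs_sin (x := x) (by rw [abs_of_pos hx0]; exact hx.2)
      rwa [abs_of_pos hx0] at this
    have h3 : 0 < 2 / π * x := by positivity
    change ‖|sin x| ^ (-p)‖ ≤ ‖(2 / π) ^ (-p) * x ^ (-p)‖
    rw [norm_of_nonneg (by positivity), norm_of_nonneg (by positivity),
      ← mul_rpow (by positivity) hx0.le]
    exact rpow_le_rpow_of_nonpos h3 h2 (by linarith)
  have hneg : IntervalIntegrable (fun θ : ℝ => |sin θ| ^ (-p)) volume (-(π / 2)) 0 := by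
    have h1 := (IntervalIntegrable.iff_comp_neg (f := fun θ : ℝ => |sin θ| ^ (-p))).1 hpos
    simp only [sin_neg, abs_neg, neg_zero] at h1
    exact h1.symm
  have h := hneg.trans hpos
  have h2 : IntervalIntegrable (fun θ : ℝ => |sin θ| ^ (-p)) volume (-(π / 2)) (-(π / 2) + π) := by
    have h3 : -(π / 2) + π = π / 2 := by ring
    rw [h3]
    exact h
  exact hper.intervalIntegrable pi_pos.ne' h2 a b

/-- The constant of the kernel lemma. -/
noncomputable def Ck (p : ℝ) : ℝ := (1 / 2) ^ (-p) * ((2 * π)⁻¹ * ∫ θ in (0 : ℝ)..2 * π, |sin θ| ^ (-p))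

lemma Ck_nonneg (p : ℝ) : 0 ≤ Ck p := by
  unfold Ck
  have : 0 ≤ ∫ θ in (0 : ℝ)..2 * π, |sin θ| ^ (-p) :=
    intervalIntegral.integral_nonneg (by positivity) fun θ _ => by positivity
  positivity

lemma abs_sin_le_norm_sub (r θ : ℝ) (a : ℂ) :
    r * |sin (θ - Complex.arg a)| ≤ ‖circleMap 0 r θ - a‖ := by
  have h1 : ‖circleMap 0 r θ - a‖ =
      ‖(circleMap 0 r θ - a) * Complex.exp (-(Complex.arg a : ℂ) * Complex.I)‖ := by
    rw [norm_mul]
    have : -(Complex.arg a : ℂ) * Complex.I = ((-(Complex.arg a) : ℝ) : ℂ) * Complex.I := by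
      push_cast; ring
    rw [this, Complex.norm_exp_ofReal_mul_I, mul_one]
  have h2 : (circleMap 0 r θ - a) * Complex.exp (-(Complex.arg a : ℂ) * Complex.I) =
      r * Complex.exp (((θ - Complex.arg a : ℝ) : ℂ) * Complex.I) - (‖a‖ : ℂ) := by
    rw [sub_mul]
    congr 1
    · rw [circleMap_zero, mul_assoc, ← Complex.exp_add]
      congr 2
      push_cast; ring
    · conv_lhs => rw [← Complex.norm_mul_exp_arg_mul_I a]
      rw [mul_assoc]
      have h3 : Complex.arg ((‖a‖ : ℂ) * Complex.exp (Complex.arg a * Complex.I)) = Complex.arg a := by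
        rw [Complex.norm_mul_exp_arg_mul_I]
      rw [h3, ← Complex.exp_add]
      have h4 : (Complex.arg a : ℂ) * Complex.I + -(Complex.arg a : ℂ) * Complex.I = 0 := by ring
      rw [h4, Complex.exp_zero, mul_one]
  rw [h1, h2]
  refine le_trans ?_ (Complex.abs_im_le_norm _)
  have h3 : (r * Complex.exp (((θ - Complex.arg a : ℝ) : ℂ) * Complex.I) - (‖a‖ : ℂ)).im =
      r * sin (θ - Complex.arg a) := by
    rw [Complex.sub_im, Complex.im_ofReal_mul, Complex.exp_ofReal_mul_I_im, Complex.ofReal_im,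
      sub_zero]
  rw [h3, abs_mul]
  gcongr
  exact le_abs_self r

lemma measurable_norm_sub_rpow (r p : ℝ) (a : ℂ) :
    Measurable (fun θ : ℝ => ‖circleMap 0 r θ - a‖ ^ (-p)) := by
  have h1 : Measurable (circleMap 0 r) := (continuous_circleMap 0 r).measurable
  exact ((h1.sub_const a).norm).pow_const _

lemma ae_sin_sub_ne_zero (φ : ℝ) : ∀ᵐ θ : ℝ, sin (θ - φ) ≠ 0 := by
  have h1 : {θ : ℝ | ¬ sin (θ - φ) ≠ 0} ⊆ Set.range fun n : ℤ => (n : ℝ) * π + φ := by
    intro θ hθ
    have hθ' : sin (θ - φ) = 0 := by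
      by_contra h
      exact hθ h
    rw [sin_eq_zero_iff] at hθ'
    obtain ⟨n, hn⟩ := hθ'
    exact ⟨n, by simp only; linarith⟩
  exact measure_mono_null h1 ((Set.countable_range _).measure_zero _)

lemma norm_sub_rpow_le {p : ℝ} (hp0 : 0 < p) {r : ℝ} (hr : 1 / 2 ≤ r) (a : ℂ) {θ : ℝ}
    (hθ : sin (θ - Complex.arg a) ≠ 0) :
    ‖circleMap 0 r θ - a‖ ^ (-p) ≤ (1 / 2) ^ (-p) * |sin (θ - Complex.arg a)| ^ (-p) := by
  have h1 : 0 < |sin (θ - Complex.arg a)| := abs_pos.2 hθ
  rw [← mul_rpow (by norm_num) h1.le]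
  refine rpow_le_rpow_of_nonpos (by positivity) ?_ (by linarith)
  exact (mul_le_mul_of_nonneg_right hr h1.le).trans (abs_sin_le_norm_sub r θ a)

/-- `z ↦ ‖z - a‖ ^ (-p)` is circle integrable. -/
lemma circleIntegrable_norm_sub_rpow {p : ℝ} (hp0 : 0 < p) (hp1 : p < 1) {r : ℝ} (hr : 1 / 2 ≤ r)
    (a : ℂ) : CircleIntegrable (fun z => ‖z - a‖ ^ (-p)) 0 r := by
  have h1 : IntervalIntegrable (fun θ : ℝ => (1 / 2 : ℝ) ^ (-p) * |sin (θ - Complex.arg a)| ^ (-p))
      volume 0 (2 * π) := by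
    have h2 := (intervalIntegrable_abs_sin_rpow hp0 hp1 (0 - Complex.arg a)
      (2 * π - Complex.arg a)).comp_sub_right (Complex.arg a)
    simp only [sub_add_cancel] at h2
    exact h2.const_mul _
  refine h1.mono_fun (measurable_norm_sub_rpow r p a).aestronglyMeasurable ?_
  refine ae_restrict_of_ae ?_
  filter_upwards [ae_sin_sub_ne_zero (Complex.arg a)] with θ hθ
  rw [norm_of_nonneg (by positivity), norm_of_nonneg (by positivity)]
  exact norm_sub_rpow_le hp0 hr a hθ

/-- The kernel lemma. -/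
lemma circleAverage_norm_sub_rpow_le {p : ℝ} (hp0 : 0 < p) (hp1 : p < 1) {r : ℝ}
    (hr : 1 / 2 ≤ r) (a : ℂ) : circleAverage (fun z => ‖z - a‖ ^ (-p)) 0 r ≤ Ck p := by
  have h0 : IntervalIntegrable (fun θ : ℝ => |sin (θ - Complex.arg a)| ^ (-p))
      volume 0 (2 * π) := by
    have h2 := (intervalIntegrable_abs_sin_rpow hp0 hp1 (0 - Complex.arg a)
      (2 * π - Complex.arg a)).comp_sub_right (Complex.arg a)
    simp only [sub_add_cancel] at h2
    exact h2
  have h1 : ∫ θ in (0 : ℝ)..2 * π, ‖circleMap 0 r θ - a‖ ^ (-p) ≤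
      ∫ θ in (0 : ℝ)..2 * π, (1 / 2 : ℝ) ^ (-p) * |sin (θ - Complex.arg a)| ^ (-p) := by
    refine intervalIntegral.integral_mono_ae (by positivity)
      (circleIntegrable_norm_sub_rpow hp0 hp1 hr a) (h0.const_mul _) ?_
    filter_upwards [ae_sin_sub_ne_zero (Complex.arg a)] with θ hθ
    exact norm_sub_rpow_le hp0 hr a hθ
  have h2 : ∫ θ in (0 : ℝ)..2 * π, |sin (θ - Complex.arg a)| ^ (-p) =
      ∫ θ in (0 : ℝ)..2 * π, |sin θ| ^ (-p) := by
    rw [intervalIntegral.integral_comp_sub_right (fun θ => |sin θ| ^ (-p))]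
    have hper : Function.Periodic (fun θ : ℝ => |sin θ| ^ (-p)) (2 * π) := by
      intro θ
      simp only [sin_add_two_pi]
    have h3 := hper.intervalIntegral_add_eq (0 - Complex.arg a) 0
    have h4 : 0 - Complex.arg a + 2 * π = 2 * π - Complex.arg a := by ring
    rw [h4, zero_add] at h3
    exact h3
  rw [circleAverage_def, smul_eq_mul]
  calc (2 * π)⁻¹ * ∫ θ in (0 : ℝ)..2 * π, ‖circleMap 0 r θ - a‖ ^ (-p)
      ≤ (2 * π)⁻¹ * ∫ θ in (0 : ℝ)..2 * π, (1 / 2 : ℝ) ^ (-p) * |sin (θ - Complex.arg a)| ^ (-p) := by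
        gcongr
    _ = Ck p := by
        rw [intervalIntegral.integral_const_mul, h2, Ck]
        ring

end Pool.Agent.Helper61.Nev
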