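import Pool.Agent.Helper61.Nev.Moment

/-!
# Towards the theorem: growth of derivatives, quotients
-/

set_option autoImplicit false

open MeasureTheory Real Set Metric Filter Topology MeromorphicOn

namespace Pool.Agent.Helper61.Nev

/-- `f` is not identically zero in the disc -/
def NZ (f : ℂ → ℂ) : Prop := ∀ z ∈ ball (0 : ℂ) 1, meromorphicOrderAt f z ≠ ⊤

lemma codisc_of_forall_nhdsNE {P : ℂ → Prop} (h : ∀ x ∈ ball (0 : ℂ) 1, ∀ᶠ z in 𝓝[≠] x, P z) :
    ∀ᶠ z in codiscreteWithin (ball (0 : ℂ) 1), P z := by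
  simp only [Filter.Eventually]
  rw [mem_codiscreteWithin_iff_forall_mem_nhdsNE]
  intro x hx
  filter_upwards [h x hx] with z hz
  exact Or.inl hz

lemma forall_nhdsNE_of_codisc {P : ℂ → Prop}
    (h : ∀ᶠ z in codiscreteWithin (ball (0 : ℂ) 1), P z) {x : ℂ} (hx : x ∈ ball (0 : ℂ) 1) :
    ∀ᶠ z in 𝓝[≠] x, P z := by
  simp only [Filter.Eventually] at h
  rw [mem_codiscreteWithin_iff_forall_mem_nhdsNE] at h
  have h1 := h x hx
  have h3 : ball (0 : ℂ) 1 ∈ 𝓝[≠] x := mem_nhdsWithin_of_mem_nhds (isOpen_ball.mem_nhds hx)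
  filter_upwards [h1, h3] with y hy hyU
  rcases hy with hy | hy
  · exact hy
  · exact absurd hyU hy

lemma nz_or_zero {f : ℂ → ℂ} (hf : MeromorphicOn f (ball 0 1)) :
    NZ f ∨ f =ᶠ[codiscreteWithin (ball (0 : ℂ) 1)] fun _ => 0 := by
  by_cases h : NZ f
  · exact Or.inl h
  · right
    unfold NZ at h
    push Not at h
    obtain ⟨x, hx, hxt⟩ := h
    refine codisc_of_forall_nhdsNE fun y hy => ?_
    have hy' : meromorphicOrderAt f y = ⊤ := by
      by_contra hne
      exact hf.meromorphicOrderAt_ne_top_of_isPreconnected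
        (convex_ball (0 : ℂ) 1).isPreconnected hy hx hne hxt
    exact meromorphicOrderAt_eq_top_iff.1 hy'

lemma NZ.ae_ne {f : ℂ → ℂ} (hf : MeromorphicOn f (ball 0 1)) (h : NZ f) :
    ∀ᶠ z in codiscreteWithin (ball (0 : ℂ) 1), f z ≠ 0 :=
  hf.eventually_codiscreteWithin_apply_ne_zero h

lemma codisc_circle {P : ℂ → Prop} (h : ∀ᶠ z in codiscreteWithin (ball (0 : ℂ) 1), P z) {r : ℝ}
    (h0 : 0 < r) (h1 : r < 1) : ∀ᶠ z in codiscreteWithin (sphere (0 : ℂ) |r|), P z :=
  codiscreteWithin_mono (sphere_subset_ball h0 h1) h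

lemma prox_congr {f g : ℂ → ℂ} (h : f =ᶠ[codiscreteWithin (ball (0 : ℂ) 1)] g) {r : ℝ}
    (h0 : 0 < r) (h1 : r < 1) : prox f r = prox g r := by
  unfold prox
  refine circleAverage_congr_codiscreteWithin ?_ h0.ne'
  filter_upwards [codisc_circle h h0 h1] with z hz
  rw [hz]

lemma pm_congr' {f g : ℂ → ℂ} (h : f =ᶠ[codiscreteWithin (ball (0 : ℂ) 1)] g) {u : ℂ}
    (hu : u ∈ ball (0 : ℂ) 1) : pm f u = pm g u :=
  pm_congr (forall_nhdsNE_of_codisc h hu)

lemma Ns_congr {f g : ℂ → ℂ} (h : f =ᶠ[codiscreteWithin (ball (0 : ℂ) 1)] g) {r : ℝ}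
    (h0 : 0 < r) (h1 : r < 1) : Ns f r = Ns g r := by
  unfold Ns
  refine finsum_congr fun u => ?_
  by_cases hu : u ∈ ball (0 : ℂ) 1
  · rw [pm_congr' h hu]
  · rw [mem_ball_zero_iff, not_lt] at hu
    rw [posLog_mul_inv_eq_zero h0 (h1.le.trans hu), mul_zero, mul_zero]

lemma Ts_congr {f g : ℂ → ℂ} (h : f =ᶠ[codiscreteWithin (ball (0 : ℂ) 1)] g) {r : ℝ}
    (h0 : 0 < r) (h1 : r < 1) : Ts f r = Ts g r := by
  unfold Ts
  rw [prox_congr h h0 h1, Ns_congr h h0 h1]

lemma pm_zero (u : ℂ) : pm (fun _ => 0) u = 0 := by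
  refine pm_eq_zero ?_
  exact analyticAt_const.meromorphicOrderAt_nonneg

lemma Ts_zero (r : ℝ) : Ts (fun _ => 0) r = 0 := by
  unfold Ts prox Ns
  simp only [norm_zero, posLog_zero, circleAverage_const, pm_zero, Int.cast_zero, zero_mul,
    finsum_zero, add_zero]

lemma prox_mul_le {f g : ℂ → ℂ} (hf : MeromorphicOn f (ball 0 1)) (hg : MeromorphicOn g (ball 0 1))
    {r : ℝ} (h0 : 0 < r) (h1 : r < 1) : prox (f * g) r ≤ prox f r + prox g r := by
  unfold prox
  rw [← circleAverage_fun_add (ci_posLog hf h0 h1) (ci_posLog hg h0 h1)]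
  refine circleAverage_mono (ci_posLog (hf.mul hg) h0 h1)
    ((ci_posLog hf h0 h1).add (ci_posLog hg h0 h1)) fun z _ => ?_
  rw [Pi.mul_apply, norm_mul]
  exact posLog_mul

lemma prox_add_le {f g : ℂ → ℂ} (hf : MeromorphicOn f (ball 0 1)) (hg : MeromorphicOn g (ball 0 1))
    {r : ℝ} (h0 : 0 < r) (h1 : r < 1) : prox (f + g) r ≤ prox f r + prox g r + log 2 := by
  unfold prox
  have hi : CircleIntegrable (fun z => log⁺ ‖f z‖ + log⁺ ‖g z‖) 0 r :=
    (ci_posLog hf h0 h1).add (ci_posLog hg h0 h1)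
  have h3 : circleAverage (fun z => (log⁺ ‖f z‖ + log⁺ ‖g z‖) + log 2) 0 r =
      circleAverage (fun z => log⁺ ‖f z‖) 0 r + circleAverage (fun z => log⁺ ‖g z‖) 0 r + log 2 := by
    rw [circleAverage_fun_add hi (circleIntegrable_const _ 0 r),
      circleAverage_fun_add (ci_posLog hf h0 h1) (ci_posLog hg h0 h1), circleAverage_const]
  rw [← h3]
  refine circleAverage_mono (ci_posLog (hf.add hg) h0 h1)
    (hi.add (circleIntegrable_const _ 0 r)) fun z _ => ?_
  rw [Pi.add_apply]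
  have := posLog_norm_add_le (f z) (g z)
  linarith

lemma Ns_mul_le {f g : ℂ → ℂ} (hf : MeromorphicOn f (ball 0 1)) (hg : MeromorphicOn g (ball 0 1))
    {r : ℝ} (h0 : 0 < r) (h1 : r < 1) : Ns (f * g) r ≤ Ns f r + Ns g r := by
  have h2 := Ns_le_of (Finset.univ : Finset (Fin 2)) (fun _ => 1) ![f, g] (fun _ => 0)
    (h := f * g) (by
      intro i _
      fin_cases i
      · exact hf
      · exact hg) (hf.mul hg) (by simp) (by
      intro u hu
      simp only [Fin.sum_univ_two, Matrix.cons_val_zero, Matrix.cons_val_one, one_mul, add_zero]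
      exact_mod_cast pm_mul (hf u hu) (hg u hu)) h0 h1
  simpa using h2

lemma Ns_add_le {f g : ℂ → ℂ} (hf : MeromorphicOn f (ball 0 1)) (hg : MeromorphicOn g (ball 0 1))
    {r : ℝ} (h0 : 0 < r) (h1 : r < 1) : Ns (f + g) r ≤ Ns f r + Ns g r := by
  have h2 := Ns_le_of (Finset.univ : Finset (Fin 2)) (fun _ => 1) ![f, g] (fun _ => 0)
    (h := f + g) (by
      intro i _
      fin_cases i
      · exact hf
      · exact hg) (hf.add hg) (by simp) (by
      intro u hu
      simp only [Fin.sum_univ_two, Matrix.cons_val_zero, Matrix.cons_val_one, one_mul, add_zero]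
      have h3 := pm_add (hf u hu) (hg u hu)
      have h4 := pm_nonneg f u
      have h5 := pm_nonneg g u
      have h6 : max (pm f u) (pm g u) ≤ pm f u + pm g u := max_le (by linarith) (by linarith)
      exact_mod_cast h3.trans h6) h0 h1
  simpa using h2

lemma Ns_deriv_le {f : ℂ → ℂ} (hf : MeromorphicOn f (ball 0 1))
    {r : ℝ} (h0 : 0 < r) (h1 : r < 1) : Ns (deriv f) r ≤ 2 * Ns f r := by
  have h2 := Ns_le_of (Finset.univ : Finset (Fin 1)) (fun _ => 2) ![f] (fun _ => 0)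
    (h := deriv f) (by
      intro i _
      fin_cases i
      exact hf) hf.deriv (by simp) (by
      intro u hu
      simp only [Finset.univ_unique, Finset.sum_singleton, Fin.default_eq_zero,
        Matrix.cons_val_zero, add_zero]
      exact_mod_cast pm_deriv (hf u hu)) h0 h1
  simpa using h2

lemma GrowthOK.congr {f g : ℂ → ℂ} (h : f =ᶠ[codiscreteWithin (ball (0 : ℂ) 1)] g)
    (hf : GrowthOK f) : GrowthOK g := by
  obtain ⟨A, hA, h1⟩ := hf
  refine ⟨A, hA, ?_⟩
  filter_upwards [h1, half_lt_eventually] with r hr hr2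
  rwa [Ts_congr h (by linarith [hr2.1]) hr2.2] at hr

lemma GrowthOK.zero : GrowthOK (fun _ => 0) :=
  ⟨0, le_rfl, Eventually.of_forall fun r => by rw [Ts_zero]; simp⟩

lemma GrowthOK.mul {f g : ℂ → ℂ} (hf : MeromorphicOn f (ball 0 1))
    (hg : MeromorphicOn g (ball 0 1)) (h1 : GrowthOK f) (h2 : GrowthOK g) : GrowthOK (f * g) := by
  obtain ⟨A, hA, h1⟩ := h1
  obtain ⟨B, hB, h2⟩ := h2
  refine ⟨A + B, by positivity, ?_⟩
  filter_upwards [h1, h2, half_lt_eventually] with r hr1 hr2 hr3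
  have h0 : 0 < r := by linarith [hr3.1]
  have h3 := prox_mul_le hf hg h0 hr3.2
  have h4 := Ns_mul_le hf hg h0 hr3.2
  unfold Ts at *
  nlinarith

lemma GrowthOK.add {f g : ℂ → ℂ} (hf : MeromorphicOn f (ball 0 1))
    (hg : MeromorphicOn g (ball 0 1)) (h1 : GrowthOK f) (h2 : GrowthOK g) : GrowthOK (f + g) := by
  obtain ⟨A, hA, h1⟩ := h1
  obtain ⟨B, hB, h2⟩ := h2
  refine ⟨A + B + log 2, by positivity, ?_⟩
  filter_upwards [h1, h2, half_lt_eventually] with r hr1 hr2 hr3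
  have h0 : 0 < r := by linarith [hr3.1]
  have h3 := prox_add_le hf hg h0 hr3.2
  have h4 := Ns_add_le hf hg h0 hr3.2
  have h5 := Lr_nonneg h0.le hr3.2
  have h6 : 0 ≤ log 2 := log_nonneg (by norm_num)
  unfold Ts at *
  nlinarith

lemma logDeriv_zero_codisc {g : ℂ → ℂ} (h : g =ᶠ[codiscreteWithin (ball (0 : ℂ) 1)] fun _ => 0) :
    logDeriv g =ᶠ[codiscreteWithin (ball (0 : ℂ) 1)] fun _ => 0 := by
  refine (logDeriv_congr_codiscreteWithin isOpen_ball h).trans ?_
  refine Eventually.of_forall fun z => ?_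
  simp [logDeriv_apply]

lemma deriv_zero_codisc {g : ℂ → ℂ} (h : g =ᶠ[codiscreteWithin (ball (0 : ℂ) 1)] fun _ => 0) :
    deriv g =ᶠ[codiscreteWithin (ball (0 : ℂ) 1)] fun _ => 0 := by
  filter_upwards [eventually_nhds_of_codiscreteWithin isOpen_ball h] with z hz
  have h1 : g =ᶠ[𝓝 z] fun _ => 0 := hz
  rw [h1.deriv_eq]
  simp

/-- Lemma on the logarithmic derivative, sharp form. -/
theorem prox_logDeriv_le {g : ℂ → ℂ} (hg : MeromorphicOn g (ball 0 1)) (hG : GrowthOK g) {ε : ℝ}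
    (hε : 0 < ε) : ∃ C : ℝ, 0 ≤ C ∧ ∀ᶠ r : ℝ in 𝓝[<] 1,
      prox (logDeriv g) r ≤ (1 + ε) * Lr r + C := by
  rcases nz_or_zero hg with h | h
  · obtain ⟨C, hC⟩ := (hasMajorant_logDeriv hg h hG).avg (fun z => norm_nonneg _) hε
    refine ⟨|C|, abs_nonneg C, ?_⟩
    filter_upwards [hC, half_lt_eventually] with r hr hr2
    have h0 : 0 < r := by linarith [hr2.1]
    have h1 := hr (fun z => log⁺ ‖logDeriv g z‖) (fun _ => 0)
      (ci_posLog hg.logDeriv h0 hr2.2) (circleIntegrable_const 0 0 r)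
      (Eventually.of_forall fun z => by simp)
    rw [circleAverage_const] at h1
    have h2 := le_abs_self C
    unfold prox
    linarith
  · refine ⟨0, le_rfl, ?_⟩
    filter_upwards [half_lt_eventually] with r hr2
    have h0 : 0 < r := by linarith [hr2.1]
    rw [prox_congr (logDeriv_zero_codisc h) h0 hr2.2]
    have h1 := Lr_nonneg h0.le hr2.2
    unfold prox
    simp only [norm_zero, posLog_zero, circleAverage_const]
    positivity

lemma GrowthOK.deriv {g : ℂ → ℂ} (hg : MeromorphicOn g (ball 0 1)) (hG : GrowthOK g) :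
    GrowthOK (deriv g) := by
  rcases nz_or_zero hg with h | h
  · obtain ⟨C, hC0, hC⟩ := prox_logDeriv_le hg hG one_pos
    obtain ⟨A, hA, h1⟩ := hG
    refine ⟨2 * A + 2 + C, by positivity, ?_⟩
    filter_upwards [hC, h1, half_lt_eventually] with r hr hr1 hr2
    have h0 : 0 < r := by linarith [hr2.1]
    have hL := Lr_nonneg h0.le hr2.2
    have h3 : prox (_root_.deriv g) r ≤ prox (logDeriv g) r + prox g r := by
      have h4 : _root_.deriv g =ᶠ[codiscreteWithin (ball (0 : ℂ) 1)] logDeriv g * g := by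
        filter_upwards [h.ae_ne hg] with z hz
        rw [Pi.mul_apply, logDeriv_apply, div_mul_cancel₀ _ hz]
      rw [prox_congr h4 h0 hr2.2]
      exact prox_mul_le hg.logDeriv hg h0 hr2.2
    have h4 := Ns_deriv_le hg h0 hr2.2
    have h5 := prox_nonneg g r
    unfold Ts at *
    nlinarith
  · exact GrowthOK.zero.congr (deriv_zero_codisc h).symm

lemma mero_iter {f : ℂ → ℂ} (hf : MeromorphicOn f (ball 0 1)) (j : ℕ) :
    MeromorphicOn (iteratedDeriv j f) (ball 0 1) := by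
  induction j with
  | zero =>
    rw [iteratedDeriv_zero]
    exact hf
  | succ j ih =>
    rw [iteratedDeriv_succ]
    exact ih.deriv

lemma growth_iter {f : ℂ → ℂ} (hf : MeromorphicOn f (ball 0 1)) (hG : GrowthOK f) (j : ℕ) :
    GrowthOK (iteratedDeriv j f) := by
  induction j with
  | zero =>
    rw [iteratedDeriv_zero]
    exact hG
  | succ j ih =>
    rw [iteratedDeriv_succ]
    exact ih.deriv (mero_iter hf j)

/-- `log⁺ |f^{(ν)}/f|` is bounded by the sum of the `log⁺ |f^{(j+1)}/f^{(j)}|`. -/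
lemma quot_le {f : ℂ → ℂ} (hf : MeromorphicOn f (ball 0 1)) (hnz : NZ f) (ν : ℕ) :
    ∀ᶠ z in codiscreteWithin (ball (0 : ℂ) 1), log⁺ ‖iteratedDeriv ν f z / f z‖ ≤
      ∑ j ∈ Finset.range ν, log⁺ ‖logDeriv (iteratedDeriv j f) z‖ := by
  induction ν with
  | zero =>
    filter_upwards [hnz.ae_ne hf] with z hz
    rw [iteratedDeriv_zero, div_self hz]
    simp
  | succ ν ih =>
    rcases nz_or_zero (mero_iter hf ν) with h | h
    · filter_upwards [ih, h.ae_ne (mero_iter hf ν)] with z hz hz2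
      rw [Finset.sum_range_succ]
      have h1 : iteratedDeriv (ν + 1) f z / f z =
          (iteratedDeriv ν f z / f z) * logDeriv (iteratedDeriv ν f) z := by
        rw [iteratedDeriv_succ, logDeriv_apply]
        field_simp
      rw [h1, norm_mul]
      exact posLog_mul.trans (by linarith)
    · filter_upwards [deriv_zero_codisc h] with z hz
      rw [iteratedDeriv_succ, hz, zero_div, norm_zero, posLog_zero]
      exact Finset.sum_nonneg fun j _ => posLog_nonneg

lemma mero_diffPoly {l : ℕ} {a : ℕ → ℂ → ℂ} {f : ℂ → ℂ} (hf : MeromorphicOn f (ball 0 1))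
    (ha : ∀ ν ≤ l, MeromorphicOn (a ν) (ball 0 1)) : MeromorphicOn (diffPoly l a f) (ball 0 1) := by
  have h1 : diffPoly l a f = ∑ ν ∈ Finset.range (l + 1), (a ν * iteratedDeriv ν f) := by
    funext z
    simp [diffPoly, Finset.sum_apply]
  rw [h1]
  refine MeromorphicOn.sum fun ν hν => ?_
  exact (ha ν (by simpa [Nat.lt_succ_iff] using hν)).mul (mero_iter hf ν)

lemma growth_diffPoly {l : ℕ} {a : ℕ → ℂ → ℂ} {f : ℂ → ℂ} (hf : MeromorphicOn f (ball 0 1))
    (ha : ∀ ν ≤ l, MeromorphicOn (a ν) (ball 0 1)) (hG : GrowthOK f)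
    (haG : ∀ ν ≤ l, GrowthOK (a ν)) : GrowthOK (diffPoly l a f) := by
  have h1 : diffPoly l a f = ∑ ν ∈ Finset.range (l + 1), (a ν * iteratedDeriv ν f) := by
    funext z
    simp [diffPoly, Finset.sum_apply]
  rw [h1]
  have h2 : ∀ n ≤ l + 1, MeromorphicOn (∑ ν ∈ Finset.range n, (a ν * iteratedDeriv ν f)) (ball 0 1) ∧
      GrowthOK (∑ ν ∈ Finset.range n, (a ν * iteratedDeriv ν f)) := by
    intro n
    induction n with
    | zero =>
      intro _
      rw [Finset.sum_range_zero]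
      exact ⟨MeromorphicOn.const 0, GrowthOK.zero⟩
    | succ n ih =>
      intro hn
      obtain ⟨h3, h4⟩ := ih (by omega)
      rw [Finset.sum_range_succ]
      have h5 := (ha n (by omega)).mul (mero_iter hf n)
      exact ⟨h3.add h5, h4.add h3 h5 ((haG n (by omega)).mul (ha n (by omega)) (mero_iter hf n)
        (growth_iter hf hG n))⟩
  exact (h2 (l + 1) le_rfl).2

lemma diffPoly_quot_le {l : ℕ} {a : ℕ → ℂ → ℂ} {f : ℂ → ℂ} (hf : MeromorphicOn f (ball 0 1))
    (hnz : NZ f) : ∀ᶠ z in codiscreteWithin (ball (0 : ℂ) 1),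
      log⁺ ‖diffPoly l a f z / f z‖ ≤ ∑ ν ∈ Finset.range (l + 1), log⁺ ‖a ν z‖ +
        ∑ j ∈ Finset.range l, log⁺ ‖logDeriv (iteratedDeriv j f) z‖ + log (l + 1) := by
  have h1 : ∀ᶠ z in codiscreteWithin (ball (0 : ℂ) 1), ∀ ν ∈ Finset.range (l + 1),
      log⁺ ‖iteratedDeriv ν f z / f z‖ ≤
        ∑ j ∈ Finset.range ν, log⁺ ‖logDeriv (iteratedDeriv j f) z‖ :=
    (eventually_all_finset _).2 fun ν _ => quot_le hf hnz ν
  filter_upwards [h1] with z hz
  set S : ℝ := ∑ j ∈ Finset.range l, log⁺ ‖logDeriv (iteratedDeriv j f) z‖ with hS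
  have hS0 : 0 ≤ S := Finset.sum_nonneg fun j _ => posLog_nonneg
  have h2 : ∀ ν ∈ Finset.range (l + 1), ‖iteratedDeriv ν f z / f z‖ ≤ exp S := by
    intro ν hν
    have h3 : log⁺ ‖iteratedDeriv ν f z / f z‖ ≤ S := by
      refine (hz ν hν).trans ?_
      refine Finset.sum_le_sum_of_subset_of_nonneg ?_ fun _ _ _ => posLog_nonneg
      intro j hj
      rw [Finset.mem_range] at *
      omega
    rcases eq_or_ne (‖iteratedDeriv ν f z / f z‖) 0 with h0 | h0
    · rw [h0]
      positivity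
    · rw [← log_le_iff_le_exp (lt_of_le_of_ne (norm_nonneg _) h0.symm)]
      exact (le_max_right _ _).trans h3
  have h3 : ‖diffPoly l a f z / f z‖ ≤ ‖(∑ ν ∈ Finset.range (l + 1), (‖a ν z‖ : ℝ))‖ * exp S := by
    have h4 : diffPoly l a f z / f z =
        ∑ ν ∈ Finset.range (l + 1), a ν z * (iteratedDeriv ν f z / f z) := by
      unfold diffPoly
      rw [Finset.sum_div]
      exact Finset.sum_congr rfl fun ν _ => by ring
    rw [h4, Real.norm_of_nonneg (Finset.sum_nonneg fun ν _ => norm_nonneg _), Finset.sum_mul]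
    refine (norm_sum_le _ _).trans (Finset.sum_le_sum fun ν hν => ?_)
    rw [norm_mul]
    exact mul_le_mul_of_nonneg_left (h2 ν hν) (norm_nonneg _)
  refine (posLog_le_posLog (norm_nonneg _) h3).trans ?_
  refine posLog_mul.trans ?_
  have h5 : log⁺ (exp S) = S := by
    rw [posLog_eq_log (by rw [abs_of_pos (exp_pos S)]; exact one_le_exp hS0), log_exp]
  rw [h5]
  have h6 := posLog_norm_sum_le (Finset.range (l + 1)) fun ν => (‖a ν z‖ : ℝ)
  simp only [norm_norm, Finset.card_range, Nat.cast_add, Nat.cast_one] at h6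
  linarith

end Pool.Agent.Helper61.Nev
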