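import Pool.Agent.Helper61.Nev.Main1

/-!
# The second main theorem part and the conclusion
-/

set_option autoImplicit false

open MeasureTheory Real Set Metric Filter Topology MeromorphicOn

namespace Pool.Agent.Helper61.Nev

lemma Ts_const (c : ℂ) (r : ℝ) : Ts (fun _ => c) r = log⁺ ‖c‖ := by
  have h1 : ∀ u, pm (fun _ => c) u = 0 := fun u =>
    pm_eq_zero analyticAt_const.meromorphicOrderAt_nonneg
  unfold Ts prox Ns
  simp only [circleAverage_const, h1, Int.cast_zero, zero_mul, finsum_zero, add_zero]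

lemma GrowthOK.const (c : ℂ) : GrowthOK (fun _ => c) := by
  refine ⟨log⁺ ‖c‖, posLog_nonneg, ?_⟩
  filter_upwards [half_lt_eventually] with r hr
  rw [Ts_const]
  have := Lr_nonneg (by linarith [hr.1]) hr.2
  have h2 : 0 ≤ log⁺ ‖c‖ := posLog_nonneg
  nlinarith

lemma sub_const_eq (Ψ : ℂ → ℂ) (w : ℂ) : (fun z => Ψ z - w) = Ψ + fun _ => -w := by
  funext z
  simp [sub_eq_add_neg]

lemma mero_sub_const {Ψ : ℂ → ℂ} (hΨ : MeromorphicOn Ψ (ball 0 1)) (w : ℂ) :
    MeromorphicOn (fun z => Ψ z - w) (ball 0 1) := by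
  rw [sub_const_eq]
  exact hΨ.add (MeromorphicOn.const _)

lemma growth_sub_const {Ψ : ℂ → ℂ} (hΨ : MeromorphicOn Ψ (ball 0 1)) (hG : GrowthOK Ψ) (w : ℂ) :
    GrowthOK (fun z => Ψ z - w) := by
  rw [sub_const_eq]
  exact hG.add hΨ (MeromorphicOn.const _) (GrowthOK.const _)

/-- The second-main-theorem part: a bound for `m(r, 1/Ψ)`. -/
theorem prox_inv_le {Ψ : ℂ → ℂ} (hΨ : MeromorphicOn Ψ (ball 0 1)) (hG : GrowthOK Ψ)
    (hnz : NZ Ψ) {w : ℂ} (hw : w ≠ 0) (hE : NZ fun z => Ψ z - w) (hD : NZ (deriv Ψ)) {ε : ℝ}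
    (hε : 0 < ε) : ∃ C : ℝ, ∀ᶠ r : ℝ in 𝓝[<] 1,
      prox Ψ⁻¹ r ≤ (1 + ε) * Lr r + Ns (logDeriv fun z => Ψ z - w) r + C := by
  set E : ℂ → ℂ := fun z => Ψ z - w with hEdef
  have hEM : MeromorphicOn E (ball 0 1) := mero_sub_const hΨ w
  have hEG : GrowthOK E := growth_sub_const hΨ hG w
  have hmaj := (hasMajorant_logDeriv hEM hE hEG).add (hasMajorant_logDeriv hΨ hnz hG)
    (fun z => norm_nonneg _) (fun z => norm_nonneg _)
  obtain ⟨C₁, hC₁⟩ := hmaj.avg (fun z => by positivity) hε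
  obtain ⟨C₂, hC₂⟩ := circleAverage_log_ge hEM.logDeriv
  refine ⟨C₁ + C₂ + log⁺ ‖w⁻¹‖, ?_⟩
  filter_upwards [hC₁, half_lt_eventually] with r hr hr2
  have h0 : 0 < r := by linarith [hr2.1]
  have h3 := hC₂ r hr2.1 hr2.2
  have hpt : ∀ᶠ z in codiscreteWithin (ball (0 : ℂ) 1),
      log⁺ ‖Ψ⁻¹ z‖ + log ‖logDeriv E z‖ ≤
        log⁺ (‖logDeriv E z‖ + ‖logDeriv Ψ z‖) + log⁺ ‖w⁻¹‖ := by
    filter_upwards [hnz.ae_ne hΨ, hE.ae_ne hEM, hD.ae_ne hΨ.deriv] with z hz1 hz2 hz3
    have hdE : deriv E z = deriv Ψ z := by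
      rw [hEdef]
      exact deriv_sub_const (f := Ψ) w
    have hQ : logDeriv E z ≠ 0 := by
      rw [logDeriv_apply, hdE]
      exact div_ne_zero hz3 hz2
    have hid : Ψ⁻¹ z * logDeriv E z = w⁻¹ * (logDeriv E z - logDeriv Ψ z) := by
      rw [logDeriv_apply, logDeriv_apply, hdE, Pi.inv_apply]
      have hz2' : Ψ z - w ≠ 0 := hz2
      have hEz : E z = Ψ z - w := rfl
      rw [hEz]
      field_simp
      ring
    have hpl : 0 ≤ log⁺ ‖w⁻¹‖ := posLog_nonneg
    rcases le_total ‖Ψ⁻¹ z‖ 1 with h | h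
    · have h1 : log⁺ ‖Ψ⁻¹ z‖ = 0 := (posLog_eq_zero_iff _).2 (by rwa [abs_norm])
      have h2 : log ‖logDeriv E z‖ ≤ log⁺ ‖logDeriv E z‖ := le_max_right _ _
      have h3 : log⁺ ‖logDeriv E z‖ ≤ log⁺ (‖logDeriv E z‖ + ‖logDeriv Ψ z‖) :=
        posLog_le_posLog (norm_nonneg _) (by linarith [norm_nonneg (logDeriv Ψ z)])
      linarith
    · have h1 : log⁺ ‖Ψ⁻¹ z‖ = log ‖Ψ⁻¹ z‖ := posLog_eq_log (by rwa [abs_norm])
      have h4 : ‖Ψ⁻¹ z‖ ≠ 0 := by
        intro h5
        rw [h5] at h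
        linarith
      rw [h1, ← log_mul h4 (norm_ne_zero_iff.2 hQ), ← norm_mul, hid, norm_mul]
      have h6 : log (‖w⁻¹‖ * ‖logDeriv E z - logDeriv Ψ z‖) ≤
          log⁺ (‖w⁻¹‖ * ‖logDeriv E z - logDeriv Ψ z‖) := le_max_right _ _
      refine h6.trans (posLog_mul.trans ?_)
      have h7 : log⁺ ‖logDeriv E z - logDeriv Ψ z‖ ≤
          log⁺ (‖logDeriv E z‖ + ‖logDeriv Ψ z‖) :=
        posLog_le_posLog (norm_nonneg _) (norm_sub_le _ _)
      linarith
  have hi1 := ci_posLog hΨ.inv h0 hr2.2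
  have hi2 := ci_log hEM.logDeriv h0 hr2.2
  have h4 := hr (fun z => log⁺ ‖Ψ⁻¹ z‖ + log ‖logDeriv E z‖) (fun _ => log⁺ ‖w⁻¹‖)
    (hi1.add hi2) (circleIntegrable_const _ 0 r) (codisc_circle hpt h0 hr2.2)
  rw [circleAverage_fun_add hi1 hi2, circleAverage_const] at h4
  unfold prox
  linarith

lemma pm_sum_le {s : Finset ℕ} {F : ℕ → ℂ → ℂ} {u : ℂ} (hF : ∀ i ∈ s, MeromorphicAt (F i) u) :
    pm (∑ i ∈ s, F i) u ≤ ∑ i ∈ s, pm (F i) u := by
  classical
  induction s using Finset.induction_on with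
  | empty =>
    rw [Finset.sum_empty, Finset.sum_empty]
    exact (pm_zero u).le
  | insert i s hi ih =>
    rw [Finset.sum_insert hi, Finset.sum_insert hi]
    have h1 := hF i (Finset.mem_insert_self i s)
    have h2 : MeromorphicAt (∑ j ∈ s, F j) u :=
      MeromorphicAt.sum fun j hj => hF j (Finset.mem_insert_of_mem hj)
    have h3 := ih fun j hj => hF j (Finset.mem_insert_of_mem hj)
    refine (pm_add h1 h2).trans (max_le ?_ ?_)
    · have : 0 ≤ ∑ j ∈ s, pm (F j) u := Finset.sum_nonneg fun j _ => pm_nonneg _ _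
      linarith
    · have := pm_nonneg (F i) u
      linarith

lemma pm_iter {f : ℂ → ℂ} (hf : MeromorphicOn f (ball 0 1)) {u : ℂ} (hu : u ∈ ball (0 : ℂ) 1)
    (h : pm f u = 0) (j : ℕ) : pm (iteratedDeriv j f) u = 0 := by
  induction j with
  | zero =>
    rw [iteratedDeriv_zero]
    exact h
  | succ j ih =>
    rw [iteratedDeriv_succ]
    have h1 := pm_deriv (mero_iter hf j u hu)
    rw [ih, mul_zero] at h1
    exact le_antisymm h1 (pm_nonneg _ _)

/-- The counting function of the logarithmic derivative of `Ψ - w`. -/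
lemma Ns_logDeriv_le {l : ℕ} {a : ℕ → ℂ → ℂ} {f : ℂ → ℂ} (hf : MeromorphicOn f (ball 0 1))
    (ha : ∀ ν ≤ l, MeromorphicOn (a ν) (ball 0 1)) {w : ℂ}
    (hE : NZ fun z => diffPoly l a f z - w)
    (hW : {z : ℂ | z ∈ ball (0 : ℂ) 1 ∧
      0 < meromorphicOrderAt (fun ζ => diffPoly l a f ζ - w) z}.Finite)
    (hP : {z : ℂ | z ∈ ball (0 : ℂ) 1 ∧ meromorphicOrderAt f z < 0}.Finite) :
    ∃ C : ℝ, ∀ r : ℝ, 0 < r → r < 1 → Ns (logDeriv fun z => diffPoly l a f z - w) r ≤
      ∑ ν ∈ Finset.range (l + 1), Ns (a ν) r + C := by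
  classical
  set E : ℂ → ℂ := fun z => diffPoly l a f z - w with hEdef
  have hΨ := mero_diffPoly hf ha
  have hEM : MeromorphicOn E (ball 0 1) := mero_sub_const hΨ w
  set S := {z : ℂ | z ∈ ball (0 : ℂ) 1 ∧ 0 < meromorphicOrderAt E z} ∪
    {z : ℂ | z ∈ ball (0 : ℂ) 1 ∧ meromorphicOrderAt f z < 0} with hS
  have hSf : S.Finite := hW.union hP
  set b : ℂ → ℝ := fun u => if u ∈ S then 1 else 0 with hb
  have hbf : (Function.support b).Finite := by
    refine hSf.subset fun u hu => ?_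
    by_contra h
    apply hu
    simp [hb, h]
  have hb0 : ∀ u, 0 ≤ b u := by
    intro u
    rw [hb]
    simp only
    split_ifs <;> norm_num
  refine ⟨∑ᶠ u, b u * log⁺ (‖u‖⁻¹), fun r h0 h1 => ?_⟩
  have h2 := Ns_le_of (Finset.range (l + 1)) (fun _ => 1) a b (h := logDeriv E)
    (fun ν hν => ha ν (by simpa [Nat.lt_succ_iff] using hν)) hEM.logDeriv hbf (by
      intro u hu
      have hQ1 : pm (logDeriv E) u ≤ 1 := by
        rw [pm_le_iff (by norm_num)]
        by_cases h : meromorphicOrderAt E u = 0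
        · refine le_trans ?_ (meromorphicOrderAt_logDeriv_nonneg (hEM u hu) h)
          exact_mod_cast (by norm_num : (-1 : ℤ) ≤ 0)
        · rw [meromorphicOrderAt_logDeriv_eq_neg_one (hEM u hu) h (hE u hu)]
          exact le_rfl
      have hsum0 : (0 : ℝ) ≤ ∑ i ∈ Finset.range (l + 1), (1 : ℝ) * pm (a i) u :=
        Finset.sum_nonneg fun i _ => by
          rw [one_mul]
          exact_mod_cast pm_nonneg (a i) u
      have hQ1' : (pm (logDeriv E) u : ℝ) ≤ 1 := by exact_mod_cast hQ1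
      by_cases huS : u ∈ S
      · have : b u = 1 := by simp [hb, huS]
        rw [this]
        linarith
      · have hbu : b u = 0 := by simp [hb, huS]
        rw [hbu, add_zero]
        by_cases hq : pm (logDeriv E) u = 0
        · rw [hq]
          simpa using hsum0
        · have hord : meromorphicOrderAt E u ≠ 0 := by
            intro h
            exact hq (pm_eq_zero (meromorphicOrderAt_logDeriv_nonneg (hEM u hu) h))
          have hW' : ¬ 0 < meromorphicOrderAt E u := fun h => huS (Or.inl ⟨hu, h⟩)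
          have hP' : ¬ meromorphicOrderAt f u < 0 := fun h => huS (Or.inr ⟨hu, h⟩)
          have hpf : pm f u = 0 := pm_eq_zero (not_lt.1 hP')
          have hneg : meromorphicOrderAt E u < 0 :=
            lt_of_le_of_ne (not_lt.1 hW') hord
          have hE1 : 1 ≤ pm E u := by
            by_contra h
            have h3 : pm E u ≤ 0 := by omega
            rw [pm_le_iff le_rfl] at h3
            exact absurd hneg (not_lt.2 (by simpa using h3))
          have hE2 : pm E u ≤ ∑ i ∈ Finset.range (l + 1), pm (a i) u := by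
            rw [hEdef, sub_const_eq]
            refine (pm_add (hΨ u hu) (MeromorphicAt.const _ _)).trans (max_le ?_ ?_)
            · have h1 : diffPoly l a f = ∑ ν ∈ Finset.range (l + 1), (a ν * iteratedDeriv ν f) := by
                funext z
                simp [diffPoly, Finset.sum_apply]
              rw [h1]
              refine (pm_sum_le fun i hi => ?_).trans (Finset.sum_le_sum fun i hi => ?_)
              · exact ((ha i (by simpa [Nat.lt_succ_iff] using hi)) u hu).mul (mero_iter hf i u hu)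
              · refine (pm_mul ((ha i (by simpa [Nat.lt_succ_iff] using hi)) u hu)
                  (mero_iter hf i u hu)).trans ?_
                rw [pm_iter hf hu hpf i, add_zero]
            · rw [pm_eq_zero analyticAt_const.meromorphicOrderAt_nonneg]
              exact Finset.sum_nonneg fun i _ => pm_nonneg _ _
          have h5 : pm (logDeriv E) u ≤ ∑ i ∈ Finset.range (l + 1), pm (a i) u :=
            hQ1.trans (hE1.trans hE2)
          have h6 : ((pm (logDeriv E) u : ℤ) : ℝ) ≤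
              ((∑ i ∈ Finset.range (l + 1), pm (a i) u : ℤ) : ℝ) := by exact_mod_cast h5
          rw [Int.cast_sum] at h6
          simpa using h6) h0 h1
  simp only [one_mul] at h2
  have h3 := finsum_posLog_le b hbf hb0 h0 h1
  linarith

/-- Finitely many zeros: `N(r, 1/f)` is bounded. -/
lemma Ns_inv_le {f : ℂ → ℂ} (hf : MeromorphicOn f (ball 0 1))
    (hZ : {z : ℂ | z ∈ ball (0 : ℂ) 1 ∧ 0 < meromorphicOrderAt f z}.Finite) :
    ∃ C : ℝ, ∀ r : ℝ, 0 < r → r < 1 → Ns f⁻¹ r ≤ C := by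
  classical
  set Z := {z : ℂ | z ∈ ball (0 : ℂ) 1 ∧ 0 < meromorphicOrderAt f z} with hZd
  set b : ℂ → ℝ := fun u => if u ∈ Z then (pm f⁻¹ u : ℝ) else 0 with hb
  have hbf : (Function.support b).Finite := by
    refine hZ.subset fun u hu => ?_
    by_contra h
    apply hu
    simp [hb, h]
  have hb0 : ∀ u, 0 ≤ b u := by
    intro u
    rw [hb]
    simp only
    split_ifs
    · exact_mod_cast pm_nonneg _ _
    · exact le_rfl
  refine ⟨∑ᶠ u, b u * log⁺ (‖u‖⁻¹), fun r h0 h1 => ?_⟩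
  have h2 := Ns_le_of (∅ : Finset ℕ) (fun _ => 1) (fun _ => f) b (h := f⁻¹)
    (by simp) hf.inv hbf (by
      intro u hu
      rw [Finset.sum_empty, zero_add]
      by_cases huS : u ∈ Z
      · simp [hb, huS]
      · have h3 : ¬ 0 < meromorphicOrderAt f u := fun h => huS ⟨hu, h⟩
        have h4 : pm f⁻¹ u = 0 := by
          refine pm_eq_zero ?_
          rw [meromorphicOrderAt_inv]
          cases h5 : meromorphicOrderAt f u with
          | top => simp
          | coe n =>
            rw [h5] at h3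
            have h6 : n ≤ 0 := by
              by_contra h7
              exact h3 (by exact_mod_cast not_le.1 h7)
            exact_mod_cast (by linarith : (0 : ℤ) ≤ -n)
        rw [h4]
        simp [hb, huS]) h0 h1
  rw [Finset.sum_empty, zero_add] at h2
  exact h2.trans (finsum_posLog_le b hbf hb0 h0 h1)

end Pool.Agent.Helper61.Nev
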