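import Pool.Agent.Helper61.Nev.Growth

/-!
# Moments of logarithmic derivatives
-/

set_option autoImplicit false

open MeasureTheory Real Set Metric Filter Topology MeromorphicOn

namespace Pool.Agent.Helper61.Nev

/-- `T(r,F) = O(log 1/(1-r))` near `1`. -/
def GrowthOK (F : ℂ → ℂ) : Prop := ∃ A : ℝ, 0 ≤ A ∧ ∀ᶠ r : ℝ in 𝓝[<] 1, Ts F r ≤ A * (1 + Lr r)

/-- The nonnegative function `X` has majorants of its `p`-th powers with means
`O((1+L)/(1-r))`. -/
def HasMajorant (X : ℂ → ℝ) : Prop :=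
  ∀ p : ℝ, 0 < p → p < 1 → ∃ C : ℝ, 0 ≤ C ∧ ∀ᶠ r : ℝ in 𝓝[<] 1, ∃ B : ℂ → ℝ,
    CircleIntegrable B 0 r ∧ (∀ z, 0 ≤ B z) ∧
    (∀ᶠ z in codiscreteWithin (sphere (0 : ℂ) |r|), X z ^ p ≤ B z) ∧
    circleAverage B 0 r ≤ C * (1 + Lr r) / (1 - r)

lemma exists_radius (s : Set ℂ) (hs : s.Finite) {a b : ℝ} (hab : a < b) :
    ∃ R : ℝ, a < R ∧ R < b ∧ ∀ z ∈ s, ‖z‖ ≠ R := by
  have h1 : (Ioo a b \ (norm '' s)).Infinite :=
    (Ioo_infinite hab).sdiff (hs.image _)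
  obtain ⟨R, hR, hR'⟩ := h1.nonempty
  refine ⟨R, hR.1, hR.2, fun z hz h => hR' ⟨z, hz, h⟩⟩

lemma half_lt_eventually : ∀ᶠ r : ℝ in 𝓝[<] 1, 1 / 2 ≤ r ∧ r < 1 := by
  have h1 : ∀ᶠ r : ℝ in 𝓝[<] 1, (1 / 2 : ℝ) < r :=
    mem_nhdsWithin_of_mem_nhds (isOpen_Ioi.mem_nhds (by norm_num : (1 / 2 : ℝ) < 1))
  filter_upwards [h1, self_mem_nhdsWithin] with r hr hr1
  exact ⟨hr.le, hr1⟩

lemma eventually_radius {P : ℝ → Prop} (h : ∀ᶠ r : ℝ in 𝓝[<] 1, P r) :
    ∃ r₀ : ℝ, r₀ < 1 ∧ ∀ r, r₀ < r → r < 1 → P r := by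
  obtain ⟨l, hl, hl'⟩ := (mem_nhdsLT_iff_exists_Ioo_subset).1 h
  exact ⟨l, hl, fun r h1 h2 => hl' ⟨h1, h2⟩⟩

/-- The logarithmic derivative of a function of slow growth has majorants. -/
theorem hasMajorant_logDeriv {F : ℂ → ℂ} (hF : MeromorphicOn F (ball 0 1))
    (hF0 : ∀ z ∈ ball (0 : ℂ) 1, meromorphicOrderAt F z ≠ ⊤) (hG : GrowthOK F) :
    HasMajorant fun z => ‖logDeriv F z‖ := by
  intro p hp0 hp1
  obtain ⟨A, hA, hG⟩ := hG
  obtain ⟨K, hK, hfm⟩ := first_main hF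
  obtain ⟨r₀, hr₀, hG⟩ := eventually_radius hG
  set K₁ : ℝ := 2 * A * (1 + log 8) + K with hK₁
  have hl8 : 0 ≤ log 8 := log_nonneg (by norm_num)
  have hK₁0 : 0 ≤ K₁ := by positivity
  set n₀ : ℝ := (pm F 0 : ℝ) + pm F⁻¹ 0 with hn₀
  have hn₀0 : 0 ≤ n₀ := add_nonneg (by exact_mod_cast pm_nonneg F 0)
    (by exact_mod_cast pm_nonneg F⁻¹ 0)
  have hCk := Ck_nonneg p
  refine ⟨1 + 4 * K₁ + 2 * Ck p * (16 * K₁ + n₀), by positivity, ?_⟩
  have hev : ∀ᶠ r : ℝ in 𝓝[<] 1, r₀ < r := mem_nhdsWithin_of_mem_nhds (isOpen_Ioi.mem_nhds hr₀)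
  filter_upwards [half_lt_eventually, hev] with r hr hr₀r
  obtain ⟨hr0, hr1⟩ := hr
  have hL : 0 ≤ Lr r := Lr_nonneg (by linarith) hr1
  set ρ : ℝ := (7 + r) / 8 with hρ
  have hρ1 : ρ < 1 := by rw [hρ]; linarith
  obtain ⟨R, hR1, hR2, hR3⟩ := exists_radius _ (poles_finite hF hρ1)
    (by linarith : (1 + r) / 2 < (3 + r) / 4)
  have hrR : r < R := by linarith
  have hRρ : R < ρ := by rw [hρ]; linarith
  have hR1' : R < 1 := by linarith
  have hR0 : 0 < R := by linarith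
  have hsub : closedBall (0 : ℂ) R ⊆ ball 0 1 := closedBall_subset_ball hR1'
  have hS : ∀ z ∈ sphere (0 : ℂ) R, meromorphicOrderAt F z = 0 := by
    intro z hz
    by_contra h
    rw [mem_sphere_zero_iff_norm] at hz
    refine hR3 z ⟨?_, h, hF0 z (hsub ?_)⟩ hz
    · rw [mem_closedBall_zero_iff, hz]
      exact hRρ.le
    · rw [mem_closedBall_zero_iff, hz]
  obtain ⟨B, hB1, hB2, hB3, hB4⟩ := exists_dom hp0 hp1 hr0 hrR (hF.mono_set hsub)
    (fun z hz => hF0 z (hsub hz)) hS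
  refine ⟨B, hB1, hB2, hB3, hB4.trans ?_⟩
  -- the terms
  have hLρ : Lr ρ = Lr r + log 8 := by
    unfold Lr
    have h1 : 1 - ρ = (1 - r) / 8 := by rw [hρ]; ring
    rw [h1, log_div (by linarith) (by norm_num)]
    ring
  have hLR : Lr R ≤ Lr ρ := by
    unfold Lr
    have := log_le_log (by linarith : 0 < 1 - ρ) (by linarith : 1 - ρ ≤ 1 - R)
    linarith
  have hbound : ∀ t : ℝ, r < t → t < 1 → Lr t ≤ Lr r + log 8 → Ts F t + Ts F⁻¹ t ≤ K₁ * (1 + Lr r) := by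
    intro t ht ht1 htL
    have h1 := hG t (hr₀r.trans ht) ht1
    have h2 := hfm t (by linarith) ht1
    have h3 : Ts F⁻¹ t ≤ Ts F t + K := by
      have := (abs_le.1 h2).1
      linarith
    have h4 : A * (1 + Lr t) ≤ A * (1 + log 8) * (1 + Lr r) := by
      have : 1 + Lr t ≤ (1 + log 8) * (1 + Lr r) := by nlinarith
      calc A * (1 + Lr t) ≤ A * ((1 + log 8) * (1 + Lr r)) := by gcongr
        _ = _ := by ring
    have h5 : K ≤ K * (1 + Lr r) := by nlinarith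
    rw [hK₁]
    nlinarith
  have ht1 := hbound R hrR hR1' (by linarith)
  have ht2 := hbound ρ (by linarith) hρ1 hLρ.le
  have h1 : circleAverage (fun z => |log ‖F z‖|) 0 R ≤ K₁ * (1 + Lr r) := by
    rw [← prox_add_prox_inv hF hR0 hR1']
    refine le_trans ?_ ht1
    unfold Ts
    have := Ns_nonneg F R
    have := Ns_nonneg F⁻¹ R
    linarith
  have h1' : 0 ≤ circleAverage (fun z => |log ‖F z‖|) 0 R :=
    circleAverage_nonneg_of_nonneg fun _ _ => abs_nonneg _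
  have h2 : 2 * R / (R ^ 2 - r ^ 2) ≤ 4 / (1 - r) := by
    have h3 : 0 < R ^ 2 - r ^ 2 := by nlinarith
    rw [div_le_div_iff₀ h3 (by linarith)]
    have h4 : (1 - r) ≤ 2 * (R - r) := by linarith
    have h5 : R ≤ R + r := by linarith
    nlinarith
  have h3 : (1 - r) / 16 ≤ log (ρ / R) := by
    have h4 : 1 + (1 - r) / 8 ≤ ρ / R := by
      rw [le_div_iff₀ hR0, hρ]
      nlinarith
    have h5 : 1 - (ρ / R)⁻¹ ≤ log (ρ / R) := one_sub_inv_le_log_of_pos (by positivity)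
    have h6 : (ρ / R)⁻¹ ≤ (1 + (1 - r) / 8)⁻¹ := by
      gcongr
    have h7 : (1 - r) / 16 ≤ 1 - (1 + (1 - r) / 8)⁻¹ := by
      rw [le_sub_comm, inv_le_iff_one_le_mul₀ (by linarith)]
      nlinarith
    linarith
  have h4 := number_le hF hR0 hRρ hρ1
  have h5 : Ns F ρ + Ns F⁻¹ ρ ≤ K₁ * (1 + Lr r) := by
    refine le_trans ?_ ht2
    unfold Ts
    have := prox_nonneg F ρ
    have := prox_nonneg F⁻¹ ρ
    linarith
  set nn : ℝ := ∑ᶠ u, |(divisor F (ball 0 R) u : ℝ)| with hnn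
  have hpos : 0 < (1 - r) := by linarith
  have h6 : nn ≤ (16 * K₁ * (1 + Lr r)) / (1 - r) + n₀ := by
    have h7 : (nn - n₀) * log (ρ / R) ≤ K₁ * (1 + Lr r) := by nlinarith
    rcases le_total nn n₀ with h8 | h8
    · have : 0 ≤ (16 * K₁ * (1 + Lr r)) / (1 - r) := by positivity
      linarith
    · have h9 : (nn - n₀) * ((1 - r) / 16) ≤ K₁ * (1 + Lr r) :=
        (mul_le_mul_of_nonneg_left h3 (by linarith)).trans h7
      have h10 : nn - n₀ ≤ (16 * K₁ * (1 + Lr r)) / (1 - r) := by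
        rw [le_div_iff₀ hpos]
        linarith
      linarith
  have h7 : 2 * R / (R ^ 2 - r ^ 2) * circleAverage (fun z => |log ‖F z‖|) 0 R ≤
      4 / (1 - r) * (K₁ * (1 + Lr r)) := by
    gcongr
  have h8 : (1 : ℝ) ≤ (1 + Lr r) / (1 - r) := by
    rw [le_div_iff₀ hpos]
    linarith
  have h9 : 2 * Ck p * nn ≤ 2 * Ck p * ((16 * K₁ * (1 + Lr r)) / (1 - r) + n₀) := by gcongr
  have h10 : n₀ ≤ n₀ * ((1 + Lr r) / (1 - r)) := le_mul_of_one_le_right hn₀0 h8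
  calc 1 + 2 * R / (R ^ 2 - r ^ 2) * circleAverage (fun z => |log ‖F z‖|) 0 R + 2 * Ck p * nn
      ≤ (1 + Lr r) / (1 - r) + 4 / (1 - r) * (K₁ * (1 + Lr r)) +
          2 * Ck p * ((16 * K₁ * (1 + Lr r)) / (1 - r) + n₀ * ((1 + Lr r) / (1 - r))) := by
        refine add_le_add (add_le_add h8 h7) (h9.trans ?_)
        gcongr
    _ = _ := by ring

lemma HasMajorant.add {X Y : ℂ → ℝ} (hX : HasMajorant X) (hY : HasMajorant Y)
    (hX0 : ∀ z, 0 ≤ X z) (hY0 : ∀ z, 0 ≤ Y z) : HasMajorant fun z => X z + Y z := by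
  intro p hp0 hp1
  obtain ⟨C₁, hC₁, h1⟩ := hX p hp0 hp1
  obtain ⟨C₂, hC₂, h2⟩ := hY p hp0 hp1
  refine ⟨C₁ + C₂, by positivity, ?_⟩
  filter_upwards [h1, h2] with r hr1 hr2
  obtain ⟨B₁, a1, a2, a3, a4⟩ := hr1
  obtain ⟨B₂, b1, b2, b3, b4⟩ := hr2
  refine ⟨fun z => B₁ z + B₂ z, a1.add b1, fun z => add_nonneg (a2 z) (b2 z), ?_, ?_⟩
  · filter_upwards [a3, b3] with z hz1 hz2
    exact (rpow_add_le' (hX0 z) (hY0 z) hp0.le hp1.le).trans (add_le_add hz1 hz2)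
  · rw [circleAverage_fun_add a1 b1]
    calc _ ≤ C₁ * (1 + Lr r) / (1 - r) + C₂ * (1 + Lr r) / (1 - r) := add_le_add a4 b4
      _ = _ := by ring

lemma posLog_le_tangent {X B A p : ℝ} (hX : 0 ≤ X) (hp : 0 < p) (hB : X ^ p ≤ B) (hA : 0 ≤ A) :
    log⁺ X ≤ (1 / p) * (log (1 + A) + (B - A) / (1 + A)) := by
  have hXp : 0 ≤ X ^ p := by positivity
  have hB0 : 0 ≤ B := hXp.trans hB
  have h1 : log⁺ X ≤ (1 / p) * log (1 + B) := by
    rcases le_total X 1 with h | h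
    · have : log⁺ X = 0 := (posLog_eq_zero_iff X).2 (by rwa [abs_of_nonneg hX])
      rw [this]
      have := log_nonneg (by linarith : (1 : ℝ) ≤ 1 + B)
      positivity
    · rw [posLog_eq_log (by rwa [abs_of_nonneg hX])]
      have h2 : log (X ^ p) ≤ log (1 + B) := log_le_log (by positivity) (by linarith)
      rw [log_rpow (by linarith)] at h2
      rw [one_div, inv_mul_eq_div, le_div_iff₀ hp]
      linarith
  refine h1.trans ?_
  have h3 : log (1 + B) ≤ log (1 + A) + (B - A) / (1 + A) := by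
    have h4 := log_le_sub_one_of_pos (by positivity : 0 < (1 + B) / (1 + A))
    rw [log_div (by positivity) (by positivity)] at h4
    have h5 : (1 + B) / (1 + A) - 1 = (B - A) / (1 + A) := by
      field_simp
      ring
    linarith
  gcongr

/-- The sharp estimate for proximity-type means of functions with majorants. -/
theorem HasMajorant.avg {X : ℂ → ℝ} (hX : HasMajorant X) (hX0 : ∀ z, 0 ≤ X z) {ε : ℝ}
    (hε : 0 < ε) : ∃ C : ℝ, ∀ᶠ r : ℝ in 𝓝[<] 1, ∀ u v : ℂ → ℝ, CircleIntegrable u 0 r →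
      CircleIntegrable v 0 r →
      (∀ᶠ z in codiscreteWithin (sphere (0 : ℂ) |r|), u z ≤ log⁺ (X z) + v z) →
      circleAverage u 0 r ≤ (1 + ε) * Lr r + C + circleAverage v 0 r := by
  -- choice of p
  set p : ℝ := (1 + ε / 2)⁻¹ with hp
  have hp0 : 0 < p := by positivity
  have hp1 : p < 1 := by
    rw [hp]
    exact inv_lt_one_of_one_lt₀ (by linarith)
  have hpi : 1 / p = 1 + ε / 2 := by rw [hp, one_div, inv_inv]
  obtain ⟨C, hC, h1⟩ := hX p hp0 hp1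
  -- `(1 + ε/2) log (1 + L) ≤ (ε/2) L + C'`
  set a : ℝ := ε / 2 / (1 + ε / 2) with ha
  have ha0 : 0 < a := by positivity
  have hlog : ∀ L : ℝ, 0 ≤ L → log (1 + L) ≤ a * L + (a - 1 - log a) := by
    intro L hL
    have h2 := log_le_sub_one_of_pos (by positivity : 0 < a * (1 + L))
    rw [log_mul ha0.ne' (by positivity)] at h2
    linarith
  refine ⟨(1 + ε / 2) * (log (1 + C) + (a - 1 - log a)), ?_⟩
  filter_upwards [h1, half_lt_eventually] with r hr hr2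
  obtain ⟨B, b1, b2, b3, b4⟩ := hr
  obtain ⟨hr0, hr1⟩ := hr2
  intro u v hu hv huv
  have hr0' : 0 < r := by linarith
  have hL : 0 ≤ Lr r := Lr_nonneg (by linarith) hr1
  set A : ℝ := C * (1 + Lr r) / (1 - r) with hA
  have hpos : 0 < 1 - r := by linarith
  have hA0 : 0 ≤ A := by positivity
  set c₁ : ℝ := (1 / p) * (1 + A)⁻¹ with hc₁
  set c₀ : ℝ := (1 / p) * (log (1 + A) - A * (1 + A)⁻¹) with hc₀
  have hi1 : CircleIntegrable (fun z => c₁ * B z) 0 r := b1.const_mul c₁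
  have hi2 : CircleIntegrable (fun z => c₀ + c₁ * B z) 0 r := (circleIntegrable_const c₀ 0 r).add hi1
  have h3 : circleAverage u 0 r ≤ circleAverage (fun z => (c₀ + c₁ * B z) + v z) 0 r := by
    refine circleAverage_mono_codisc hr0'.ne' hu (hi2.add hv) ?_
    filter_upwards [huv, b3] with z hz hz3
    have h4 := posLog_le_tangent (hX0 z) hp0 hz3 hA0
    have h5 : (1 / p) * (log (1 + A) + (B z - A) / (1 + A)) = c₀ + c₁ * B z := by
      rw [hc₀, hc₁]
      ring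
    linarith
  have h4 : circleAverage (fun z => (c₀ + c₁ * B z) + v z) 0 r =
      c₀ + c₁ * circleAverage B 0 r + circleAverage v 0 r := by
    rw [circleAverage_fun_add hi2 hv, circleAverage_fun_add (circleIntegrable_const c₀ 0 r) hi1,
      circleAverage_const]
    congr 2
    have := circleAverage_fun_smul (a := c₁) (f := B) (c := 0) (R := r)
    simpa only [smul_eq_mul] using this
  have hc₁0 : 0 ≤ c₁ := by positivity
  have h5 : c₀ + c₁ * circleAverage B 0 r ≤ (1 / p) * log (1 + A) := by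
    have : c₁ * circleAverage B 0 r ≤ c₁ * A := by gcongr
    calc _ ≤ c₀ + c₁ * A := by linarith
      _ = _ := by rw [hc₀, hc₁]; ring
  have h6 : log (1 + A) ≤ log (1 + C) + log (1 + Lr r) + Lr r := by
    have h7 : 1 + A ≤ (1 + C) * (1 + Lr r) * (1 - r)⁻¹ := by
      rw [hA, ← div_eq_mul_inv, le_div_iff₀ hpos, add_mul, div_mul_cancel₀ _ hpos.ne']
      nlinarith [mul_nonneg hC hL]
    have h8 := log_le_log (by positivity) h7
    rw [log_mul (by positivity) (by positivity), log_mul (by positivity) (by positivity),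
      log_inv] at h8
    exact h8
  have h7 := hlog (Lr r) hL
  have h8 : (1 + ε / 2) * a = ε / 2 := by
    rw [ha]
    field_simp
  rw [h4] at h3
  rw [hpi] at h5
  have h9 : (1 + ε / 2) * log (1 + A) ≤
      (1 + ε / 2) * (log (1 + C) + (a * Lr r + (a - 1 - log a)) + Lr r) := by
    gcongr
    linarith
  have h10 : (1 + ε / 2) * (log (1 + C) + (a * Lr r + (a - 1 - log a)) + Lr r) =
      (1 + ε) * Lr r + (1 + ε / 2) * (log (1 + C) + (a - 1 - log a)) +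
        ((1 + ε / 2) * a - ε / 2) * Lr r := by ring
  rw [h8, sub_self, zero_mul, add_zero] at h10
  linarith

end Pool.Agent.Helper61.Nev
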